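import Pool.Agent.D0H97.FT.Bnd
import Pool.Agent.D0H97.FX.St

/-!
The bound for the heights outside of a closed set.
-/

set_option autoImplicit false
set_option linter.unusedSectionVars false

namespace Pool.Agent.D0H97.FX

open NumberField IsDedekindDomain Height Filter Topology
open Pool.Agent.W180.OP (Pl av wt fv fv_support_finite wt_nonneg)
open Pool.Agent.K1H83.VN (Sc Sm L_pos two_le_exp const_of_finite abs_log_le' nm le_nm nm_le
  nm_nonneg nm_unit ho c1 ne_of_coord ne_of_one ho_mul_le prod_formula logHeight_split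
  logHeight_le_sum)
open Pool.Agent.D0H85.SP (pw pw_ne pw_add pw_neg pw_zero pw_zsmul pw_sum exists_basis)
open Pool.Agent.D0H97.FT (Si hSi inr_Si mem_Si v10 dn nm_pair dn_nonneg dn_le_height dn_mul dn_add
  dn_neg ho_c1_le dg one_le_dg zz zz_inj lam inf_rat inf_nat dn_rat Coherent den_bound exists_lim
  Rp ht_nat)

/-- The variety with generic point `y`, without the common zeros of the forms `F j`, is covered by a
family of nonconstant images of the affine line. -/
def CoveredL {k : Type} [Field k] {n w : ℕ} (F : Fin w → MvPolynomial (Fin (n + 1)) k) {E : Type}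
    [Field E] [Algebra k E] (y : Fin (n + 1) → E) : Prop :=
  ∃ (M : Type) (_ : Field M) (_ : Algebra k M) (W : Fin (n + 1) → Polynomial M),
    (∀ g : MvPolynomial (Fin (n + 1)) k, (∃ e, g.IsHomogeneous e) →
      (MvPolynomial.aeval y g = 0 ↔ (MvPolynomial.aeval W g : Polynomial M) = 0)) ∧
    (∀ t : AlgebraicClosure M,
      ∃ j, Polynomial.aeval t (MvPolynomial.aeval W (F j) : Polynomial M) ≠ 0) ∧
    ∃ i j, W i * Polynomial.C ((W j).eval 1) ≠ W j * Polynomial.C ((W i).eval 1)

theorem ht_le {N : ℕ} (n : ℕ) (E : Finset (Fin N →₀ ℕ)) (r : ℕ) : ∃ C : ℝ, 0 < C ∧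
    ∀ (k : Type) [Field k] [NumberField k], Module.finrank ℚ k ≤ r → ∀ (T ℓ : ℝ), 0 ≤ T → 0 ≤ ℓ →
    ∀ (x : Fin (n + 1) → k) (a : Fin (n + 1) → (Fin N →₀ ℕ) → k) (s : Fin N → ℕ),
      (∀ i q, logHeight₁ (a i q) ≤ T) → (∀ j, Real.log (s j) ≤ ℓ) →
      (∀ i, x i = ∑ q ∈ E, a i q * ∏ j, (s j : k) ^ q j) → logHeight x ≤ C * (1 + T + ℓ) := by
  classical
  set C1 : ℝ := r * Real.log (E.card : ℝ) with hC1
  set C2 : ℝ := (E.card : ℝ) with hC2
  set C3 : ℝ := ∑ q ∈ E, ∑ j, (q j : ℝ) * r with hC3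
  have h1 : 0 ≤ C1 := mul_nonneg (Nat.cast_nonneg _) (Real.log_natCast_nonneg _)
  have h2 : 0 ≤ C2 := Nat.cast_nonneg _
  have h3 : 0 ≤ C3 := Finset.sum_nonneg fun q _ => Finset.sum_nonneg fun j _ =>
    mul_nonneg (Nat.cast_nonneg _) (Nat.cast_nonneg _)
  refine ⟨((n : ℝ) + 1) * (C1 + C2 + C3 + 1), by positivity, ?_⟩
  intro k _ _ hkr T ℓ hT hℓ x a s ha hs hx
  have hkr' : (Module.finrank ℚ k : ℝ) ≤ r := by exact_mod_cast hkr
  have h4 : ∀ i, logHeight₁ (x i) ≤ (C1 + C2 + C3 + 1) * (1 + T + ℓ) := by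
    intro i
    rw [hx i]
    refine (logHeight₁_sum_le _ _).trans ?_
    have h5 : ∀ q ∈ E, logHeight₁ (a i q * ∏ j, (s j : k) ^ q j) ≤
        T + (∑ j, (q j : ℝ) * r) * ℓ := by
      intro q _
      refine (logHeight₁_mul_le _ _).trans (add_le_add (ha i q) ?_)
      refine (logHeight₁_prod_le _ _).trans ?_
      rw [Finset.sum_mul]
      refine Finset.sum_le_sum fun j _ => ?_
      rw [logHeight₁_pow, mul_assoc]
      refine mul_le_mul_of_nonneg_left ?_ (Nat.cast_nonneg _)
      have h6 := ht_nat (k := k) (s j)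
      rw [dg_eq] at h6
      exact h6.trans (mul_le_mul hkr' (hs j) (Real.log_natCast_nonneg _) (Nat.cast_nonneg _))
    have h6 : ∑ q ∈ E, logHeight₁ (a i q * ∏ j, (s j : k) ^ q j) ≤ C2 * T + C3 * ℓ := by
      refine (Finset.sum_le_sum h5).trans (le_of_eq ?_)
      rw [Finset.sum_add_distrib, Finset.sum_const, nsmul_eq_mul, ← Finset.sum_mul]
    have h7 : 0 ≤ C1 * (T + ℓ) + C2 * (1 + ℓ) + C3 * (1 + T) + (1 + T + ℓ) := by positivity
    have h8 : (totalWeight k : ℝ) * Real.log (E.card : ℝ) ≤ C1 := by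
      rw [totalWeight_eq_finrank]
      exact mul_le_mul_of_nonneg_right hkr' (Real.log_natCast_nonneg _)
    calc _ ≤ C1 + (C2 * T + C3 * ℓ) := add_le_add h8 h6
      _ ≤ C1 + (C2 * T + C3 * ℓ) + (C1 * (T + ℓ) + C2 * (1 + ℓ) + C3 * (1 + T) +
          (1 + T + ℓ)) := by linarith
      _ = _ := by ring
  calc logHeight x ≤ ∑ i, logHeight₁ (x i) := logHeight_le_sum x
    _ ≤ ∑ _i : Fin (n + 1), (C1 + C2 + C3 + 1) * (1 + T + ℓ) := Finset.sum_le_sum fun i _ => h4 i
    _ = _ := by
      rw [Finset.sum_const, Finset.card_univ, Fintype.card_fin, nsmul_eq_mul]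
      push_cast
      ring

/-- one entry is the largest -/
theorem exists_max {σ : Sc} {N : ℕ} [Nonempty (Fin N)] (f : Fin N → ℕ → ℝ) :
    ∃ j0, ∀ᶠ t in (σ.𝒰 : Filter ℕ), ∀ j, f j t ≤ f j0 t := by
  have h1 : ∀ t, ∃ j0, ∀ j, f j t ≤ f j0 t := fun t => Finite.exists_max fun j => f j t
  choose J hJ using h1
  obtain ⟨j0, -, hj0⟩ := const_of_finite (σ := σ) J Set.univ Set.finite_univ
    (Eventually.of_forall fun _ => Set.mem_univ _)
  refine ⟨j0, ?_⟩
  filter_upwards [hj0] with t ht
  rw [← ht]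
  exact hJ t

/-- **The bound.** -/
theorem dens {K : Type} [Field K] [NumberField K] {N n w : ℕ} {A : Set ℕ} (hA : Coherent A)
    (F : Fin w → MvPolynomial (Fin (n + 1)) K) (hF : ∀ j, ∃ d, 0 < d ∧ (F j).IsHomogeneous d)
    {E : Type} [Field E] [Algebra K E] {y : Fin (n + 1) → E} (hcov : ¬ CoveredL F y) (r : ℕ)
    (Ex : Finset (Fin N →₀ ℕ)) (c : ℕ) :
    ∃ (H : MvPolynomial (Fin (n + 1)) K) (e : ℕ), H.IsHomogeneous e ∧ MvPolynomial.aeval y H ≠ 0 ∧
      ∃ C : ℝ, ∀ (L : Type) [Field L] [NumberField L] [Algebra K L], Module.finrank ℚ L ≤ r →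
        ∀ T : ℝ, 0 ≤ T → ∀ x : Fin (n + 1) → L, Rp A Ex c T x →
        (∃ j, MvPolynomial.aeval x (F j) ≠ 0) →
        -ho (Si L) (fun j => MvPolynomial.aeval x (F j)) ≤ T →
        (∀ g : MvPolynomial (Fin (n + 1)) K, (∃ e, g.IsHomogeneous e) →
          MvPolynomial.aeval y g = 0 → MvPolynomial.aeval x g = 0) →
        MvPolynomial.aeval x H ≠ 0 → logHeight x ≤ C * (1 + T) := by
  classical
  obtain ⟨C1, hC1, hht⟩ := ht_le n Ex r
  induction c with
  | zero =>
    refine ⟨1, 0, MvPolynomial.isHomogeneous_one _ _, by rw [map_one]; exact one_ne_zero, C1, ?_⟩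
    intro L _ _ _ hr T hT x hx _ _ _ _
    obtain ⟨a, s, ha, -, hc, hxs⟩ := hx
    have h1 : ∀ j, s j = 0 := by
      intro j
      by_contra h
      have h2 : j ∈ Finset.univ.filter fun j => s j ≠ 0 :=
        Finset.mem_filter.2 ⟨Finset.mem_univ _, h⟩
      have h3 := Finset.card_pos.2 ⟨j, h2⟩
      omega
    have h2 := hht L hr T 0 hT le_rfl x a s ha (fun j => by rw [h1 j]; simp) hxs
    simpa using h2
  | succ c ih =>
    obtain ⟨H', e', hH', hHy', C', hC'⟩ := ih
    by_contra hcon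
    push Not at hcon
    -- the forms which do not vanish on the variety
    let Fm := {H : MvPolynomial (Fin (n + 1)) K // (∃ e, H.IsHomogeneous e) ∧
      MvPolynomial.aeval y H ≠ 0}
    have hcK : Countable K := by
      rw [← Cardinal.mk_le_aleph0_iff]
      have h := Algebra.IsAlgebraic.cardinalMk_le_max ℚ K
      simpa using h
    have hcF : Countable (MvPolynomial (Fin (n + 1)) K) := by
      rw [← Cardinal.mk_le_aleph0_iff]
      refine (MvPolynomial.cardinalMk_le_max (σ := Fin (n + 1)) (R := K)).trans ?_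
      simp
    have hne : Nonempty Fm := ⟨⟨1, ⟨0, MvPolynomial.isHomogeneous_one _ _⟩, by
      rw [map_one]; exact one_ne_zero⟩⟩
    obtain ⟨f, hf⟩ := exists_surjective_nat Fm
    choose ef hef using fun m => (f m).2.1
    let Hm : ℕ → MvPolynomial (Fin (n + 1)) K := fun m =>
      (∏ i ∈ Finset.range (m + 1), (f i).1) * H'
    have hHm : ∀ m, (Hm m).IsHomogeneous (∑ i ∈ Finset.range (m + 1), ef i + e') := fun m =>
      (MvPolynomial.IsHomogeneous.prod _ _ _ fun i _ => hef i).mul hH'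
    have hHy : ∀ m, MvPolynomial.aeval y (Hm m) ≠ 0 := by
      intro m
      show MvPolynomial.aeval y ((∏ i ∈ Finset.range (m + 1), (f i).1) * H') ≠ 0
      rw [map_mul, map_prod]
      exact mul_ne_zero (Finset.prod_ne_zero_iff.2 fun i _ => (f i).2.2) hHy'
    choose Λ i1 i2 i3 hr T hT x hR hFx hgcd hV hHx hlt using fun t : ℕ =>
      hcon (Hm t) _ (hHm t) (hHy t) (t : ℝ)
    have hbdd : Bdd Λ := ⟨⟨r, hr⟩⟩
    choose a s ha hsA hcard hx using hR
    let ℓ : ℕ → ℝ := fun t => Real.log ((Finset.univ.sup (s t) : ℕ) : ℝ)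
    have hsl : ∀ t j, s t j ≤ Finset.univ.sup (s t) := fun t j => Finset.le_sup (Finset.mem_univ j)
    have hℓ0 : ∀ t, 0 ≤ ℓ t := fun t => Real.log_natCast_nonneg _
    have hlogs : ∀ t j, Real.log (s t j) ≤ ℓ t := by
      intro t j
      rcases Nat.eq_zero_or_pos (s t j) with h | h
      · rw [h, Nat.cast_zero, Real.log_zero]
        exact hℓ0 t
      · exact Real.log_le_log (by exact_mod_cast h) (by exact_mod_cast hsl t j)
    have hkey : ∀ t : ℕ, ((t : ℝ) - C1) * (1 + T t) < C1 * ℓ t := by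
      intro t
      have h1 := hht (Λ t) (hr t) (T t) (ℓ t) (hT t) (hℓ0 t) (x t) (a t) (s t) (ha t) (hlogs t)
        (hx t)
      have h2 := hlt t
      have h3 : (t : ℝ) * (1 + T t) < C1 * (1 + T t + ℓ t) := h2.trans_le h1
      have h4 : ((t : ℝ) - C1) * (1 + T t) = (t : ℝ) * (1 + T t) - C1 * (1 + T t) := by ring
      have h5 : C1 * (1 + T t + ℓ t) = C1 * (1 + T t) + C1 * ℓ t := by ring
      linarith
    have hlim : Tendsto ℓ (hyperfilter ℕ : Filter ℕ) atTop := by
      refine Tendsto.mono_left ?_ Nat.hyperfilter_le_atTop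
      have h1 : Tendsto (fun t : ℕ => ((t : ℝ) - C1) / C1) atTop atTop :=
        (tendsto_atTop_add_const_right _ (-C1) tendsto_natCast_atTop_atTop).atTop_div_const hC1
      refine tendsto_atTop_mono (fun t => ?_) h1
      rw [div_le_iff₀ hC1, mul_comm]
      rcases le_total (t : ℝ) C1 with h2 | h2
      · have := mul_nonneg hC1.le (hℓ0 t)
        linarith
      · have h3 : ((t : ℝ) - C1) * 1 ≤ ((t : ℝ) - C1) * (1 + T t) :=
          mul_le_mul_of_nonneg_left (by linarith [hT t]) (by linarith)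
        linarith [hkey t]
    let σ : Sc := ⟨hyperfilter ℕ, ℓ, hlim⟩
    have hT' : Sm σ T := by
      intro ε hε
      have h1 : ∀ᶠ t : ℕ in (hyperfilter ℕ : Filter ℕ), C1 / ε + C1 ≤ (t : ℝ) :=
        Nat.hyperfilter_le_atTop (tendsto_natCast_atTop_atTop.eventually_ge_atTop _)
      have h2 : ∀ᶠ t : ℕ in (hyperfilter ℕ : Filter ℕ), T t ≤ ε * ℓ t := by
        filter_upwards [h1] with t ht
        have h3 : C1 / ε * T t ≤ ((t : ℝ) - C1) * (1 + T t) := by
          have h4 : C1 / ε ≤ (t : ℝ) - C1 := by linarith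
          have h5 : 0 ≤ C1 / ε := by positivity
          exact mul_le_mul h4 (by linarith [hT t]) (hT t) (by linarith)
        have h4 : C1 / ε * T t ≤ C1 * ℓ t := h3.trans (hkey t).le
        have h5 : T t / ε ≤ ℓ t := by
          have h6 : C1 / ε * T t = C1 * (T t / ε) := by ring
          rw [h6] at h4
          exact le_of_mul_le_mul_left h4 hC1
        rw [div_le_iff₀ hε] at h5
        linarith
      exact h2
    have hpos : ∀ᶠ t in (σ.𝒰 : Filter ℕ), 0 < ℓ t := L_pos (σ := σ)
    -- the zero pattern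
    obtain ⟨Z, -, hZ⟩ := const_of_finite (σ := σ)
      (fun t => Finset.univ.filter fun j => s t j = 0) Set.univ Set.finite_univ
      (Eventually.of_forall fun _ => Set.mem_univ _)
    have hZj : ∀ᶠ t in (σ.𝒰 : Filter ℕ), ∀ j, s t j = 0 ↔ j ∈ Z := by
      filter_upwards [hZ] with t ht j
      rw [← ht, Finset.mem_filter]
      exact ⟨fun h => ⟨Finset.mem_univ _, h⟩, fun h => h.2⟩
    let s' : Fin N → ℕ → ℕ := fun j t => if s t j = 0 then 1 else s t j
    have hs'0 : ∀ j t, s' j t ≠ 0 := by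
      intro j t
      show (if s t j = 0 then 1 else s t j) ≠ 0
      split_ifs with h
      · exact one_ne_zero
      · exact h
    have hs'A : ∀ j t, s' j t ∈ insert 1 A := by
      intro j t
      show (if s t j = 0 then 1 else s t j) ∈ insert 1 A
      split_ifs with h
      · exact Set.mem_insert _ _
      · exact Set.mem_insert_of_mem _ (hsA t j h)
    have hs'L : ∀ᶠ t in (σ.𝒰 : Filter ℕ), ∀ j, Real.log (s' j t) ≤ σ.L t := by
      refine Eventually.of_forall fun t j => ?_
      show Real.log (((if s t j = 0 then 1 else s t j : ℕ)) : ℝ) ≤ ℓ t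
      split_ifs with h
      · rw [Nat.cast_one, Real.log_one]
        exact hℓ0 t
      · exact hlogs t j
    have hN : Nonempty (Fin N) := by
      by_contra hne
      rw [not_nonempty_iff] at hne
      obtain ⟨t, ht⟩ := hpos.exists
      have h1 : ℓ t = 0 := by
        show Real.log ((Finset.univ.sup (s t) : ℕ) : ℝ) = 0
        rw [Finset.univ_eq_empty, Finset.sup_empty]
        simp
      rw [h1] at ht
      exact lt_irrefl _ ht
    obtain ⟨j0, hj0⟩ := exists_max (σ := σ) fun (j : Fin N) t => (s t j : ℝ)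
    have hj0l : ∀ᶠ t in (σ.𝒰 : Filter ℕ), s t j0 ≠ 0 ∧ Real.log (s t j0) = ℓ t := by
      filter_upwards [hj0, hpos] with t h1 h2
      have h3 : Finset.univ.sup (s t) = s t j0 :=
        le_antisymm (Finset.sup_le fun j _ => by exact_mod_cast h1 j) (hsl t j0)
      have h4 : Real.log (s t j0) = ℓ t := by
        show _ = Real.log ((Finset.univ.sup (s t) : ℕ) : ℝ)
        rw [h3]
      refine ⟨fun h5 => ?_, h4⟩
      rw [h5, Nat.cast_zero, Real.log_zero] at h4
      linarith
    have hj0s : ¬ Sm σ fun t => Real.log (s' j0 t) := by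
      intro h
      obtain ⟨t, h1, ⟨h2, h3⟩, h4⟩ := ((h (1 / 2) (by norm_num)).and (hj0l.and hpos)).exists
      have h5 : s' j0 t = s t j0 := if_neg h2
      have h6 : Real.log (s' j0 t) ≤ 1 / 2 * ℓ t := h1
      rw [h5, h3] at h6
      linarith
    let E' : Finset (Fin N →₀ ℕ) := Ex.filter fun q => ∀ j ∈ Z, q j = 0
    have hE' : ∀ (t : ℕ) (b : (Fin N →₀ ℕ) → Λ t) (s1 s2 : Fin N → ℕ), (∀ j ∈ Z, s1 j = 0) →
        (∀ j, j ∉ Z → s1 j = s2 j) → ∑ q ∈ Ex, b q * ∏ j, (s1 j : Λ t) ^ q j =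
          ∑ q : E', b q.1 * ∏ j, (s2 j : Λ t) ^ q.1 j := by
      intro t b s1 s2 h1 h2
      rw [Finset.sum_coe_sort E' fun q => b q * ∏ j, (s2 j : Λ t) ^ q j, Finset.sum_filter]
      refine Finset.sum_congr rfl fun q _ => ?_
      split_ifs with h3
      · congr 1
        refine Finset.prod_congr rfl fun j _ => ?_
        by_cases hj : j ∈ Z
        · rw [h3 j hj, pow_zero, pow_zero]
        · rw [h2 j hj]
      · push Not at h3
        obtain ⟨j, hj, hqj⟩ := h3
        rw [Finset.prod_eq_zero (Finset.mem_univ j), mul_zero]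
        rw [h1 j hj, Nat.cast_zero, zero_pow hqj]
    obtain ⟨P, hP1, hP2, hstep⟩ := step (σ := σ) (Λ := Λ) hA.insert_one F hF (fun i t => x t i)
      (fun i (q : E') t => a t i q.1) (fun q j => q.1 j) s' hs'0 hs'A hs'L
      (fun i q => hT'.mono (Eventually.of_forall fun t => ha t i q.1))
      (fun i => by
        filter_upwards [hZj] with t ht
        rw [hx t i]
        refine hE' t (a t i) (s t) (fun j => s' j t) (fun j hj => (ht j).2 hj) fun j hj => ?_
        show s t j = if s t j = 0 then 1 else s t j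
        rw [if_neg fun h => hj ((ht j).1 h)])
      (fun t => hFx t)
      (hT'.mono (Eventually.of_forall fun t => hgcd t)) j0 hj0s
    rcases hstep with h | ⟨J, hJ, hJx⟩
    · -- a family of lines
      refine hcov ⟨G Λ σ, inferInstance, inferInstance, P, ?_, hP2, h⟩
      rintro g ⟨d, hd⟩
      rw [hP1 g d hd]
      constructor
      · intro h0
        exact Eventually.of_forall fun t => hV t g ⟨d, hd⟩ h0
      · intro h0
        by_contra hg0
        obtain ⟨m0, hm0⟩ := hf ⟨g, ⟨d, hd⟩, hg0⟩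
        have h5 : ∀ᶠ t : ℕ in (σ.𝒰 : Filter ℕ), m0 ≤ t :=
          Nat.hyperfilter_le_atTop (eventually_ge_atTop m0)
        obtain ⟨t, h6, h7⟩ := (h0.and h5).exists
        apply hHx t
        show MvPolynomial.aeval (x t) ((∏ i ∈ Finset.range (t + 1), (f i).1) * H') = 0
        rw [map_mul, map_prod]
        refine mul_eq_zero_of_left ?_ _
        refine Finset.prod_eq_zero (Finset.mem_range.2 (Nat.lt_succ_of_le h7)) ?_
        rw [hm0]
        exact h6
    have hlarge : ∀ᶠ t : ℕ in (σ.𝒰 : Filter ℕ), C' ≤ (t : ℝ) :=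
      Nat.hyperfilter_le_atTop (tendsto_natCast_atTop_atTop.eventually_ge_atTop _)
    obtain ⟨t, h1, h2, h3, h4, -⟩ := (hJx.and (hZj.and (hj0l.and hlarge))).exists.imp
      fun t h => (⟨h.1, h.2.1, h.2.2.1, h.2.2.2, trivial⟩ : _ ∧ _ ∧ _ ∧ _ ∧ True)
    have h5 : Rp A Ex c (T t) (x t) := by
      refine ⟨a t, fun j => if j ∈ J then 0 else s t j, ha t, ?_, ?_, ?_⟩
      · intro j hj
        have h6 : (if j ∈ J then 0 else s t j) ≠ 0 := hj
        split_ifs at h6 with h7
        · exact absurd rfl h6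
        · show (if j ∈ J then 0 else s t j) ∈ A
          rw [if_neg h7]
          exact hsA t j h6
      · have h6 : (Finset.univ.filter fun j => (if j ∈ J then 0 else s t j) ≠ 0) ⊆
            (Finset.univ.filter fun j => s t j ≠ 0).erase j0 := by
          intro j hj
          have h7 := (Finset.mem_filter.1 hj).2
          rw [Finset.mem_erase, Finset.mem_filter]
          by_cases hjJ : j ∈ J
          · rw [if_pos hjJ] at h7
            exact absurd rfl h7
          · rw [if_neg hjJ] at h7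
            exact ⟨fun h8 => hjJ (h8 ▸ hJ), Finset.mem_univ _, h7⟩
        have h7 := Finset.card_le_card h6
        have h9 : j0 ∈ Finset.univ.filter fun j => s t j ≠ 0 :=
          Finset.mem_filter.2 ⟨Finset.mem_univ _, h3.1⟩
        rw [Finset.card_erase_of_mem h9] at h7
        have h8 := hcard t
        show (Finset.univ.filter fun j => (if j ∈ J then 0 else s t j) ≠ 0).card ≤ c
        omega
      · intro i
        have h6 := h1 i
        rw [h6]
        symm
        refine hE' t (a t i) _ _ (fun j hj => ?_) fun j hj => ?_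
        · by_cases hjJ : j ∈ J
          · rw [if_pos hjJ]
          · rw [if_neg hjJ]
            exact (h2 j).2 hj
        · by_cases hjJ : j ∈ J
          · rw [if_pos hjJ, if_pos hjJ]
          · rw [if_neg hjJ, if_neg hjJ]
            show s t j = if s t j = 0 then 1 else s t j
            rw [if_neg fun h => hj ((h2 j).1 h)]
    have hH'x : MvPolynomial.aeval (x t) H' ≠ 0 := by
      intro h0
      apply hHx t
      show MvPolynomial.aeval (x t) ((∏ i ∈ Finset.range (t + 1), (f i).1) * H') = 0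
      rw [map_mul, h0, mul_zero]
    have h6 := hC' (Λ t) (hr t) (T t) (hT t) (x t) h5 (hFx t) (hgcd t) (hV t) hH'x
    have h7 := hlt t
    have h8 : C' * (1 + T t) ≤ t * (1 + T t) :=
      mul_le_mul_of_nonneg_right h4 (by linarith [hT t])
    linarith

end Pool.Agent.D0H97.FX
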