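import Pool.Agent.D0H97.FX.Cr0

/-!
The main step: the line.
-/

set_option autoImplicit false
set_option linter.unusedSectionVars false

namespace Pool.Agent.D0H97.FX

open NumberField IsDedekindDomain Height Filter Topology
open Pool.Agent.W180.OP (Pl av wt fv fv_support_finite wt_nonneg)
open Pool.Agent.K1H83.VN (Sc Sm L_pos two_le_exp const_of_finite abs_log_le' nm le_nm nm_le
  nm_nonneg nm_unit ho c1 ne_of_coord ne_of_one ho_mul_le prod_formula logHeight_split)
open Pool.Agent.D0H85.SP (pw pw_add pw_neg pw_zero Th Th_C Th_X Th_monomial wgt exists_factor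
  eval₂_smul poly_zero eval_eval₂)
open Pool.Agent.D0H97.FT (Si hSi inr_Si mem_Si v10 dn nm_pair dn_nonneg dn_le_height dn_mul dn_add
  dn_neg ho_c1_le dg one_le_dg zz zz_inj cM cM_apply zero_form exists_weights)

variable {Λ : ℕ → Type} [∀ t, Field (Λ t)] [∀ t, NumberField (Λ t)] [Bdd Λ] {σ : Sc} {s : ℕ}
  {K : Type} [Field K] [NumberField K] [∀ t, Algebra K (Λ t)]
  {e : Fin s → G Λ σ} {β : Fin s → ℝ} {n w : ℕ}

/-- **The main step.** -/
theorem core (h : Bet e β)
    (F : Fin w → MvPolynomial (Fin (n + 1)) K) (hF : ∀ j, ∃ d, 0 < d ∧ (F j).IsHomogeneous d)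
    (x : Fin (n + 1) → ∀ t, Λ t) {κ : Type} [Fintype κ] (A : Fin (n + 1) → κ → FF Λ σ)
    (nn : κ → Fin s → ℤ) (hnn : ∀ q, 0 ≤ ∑ i, (nn q i : ℝ) * β i)
    (hx : ∀ i, gm σ (x i) = ∑ q, (A i q : G Λ σ) * pw e (nn q))
    (hFx : ∀ t, ∃ j, MvPolynomial.aeval (fun i => x i t) (F j) ≠ 0)
    (hFs : Sm σ fun t => -ho (Si (Λ t)) fun j => MvPolynomial.aeval (fun i => x i t) (F j)) :
    ∃ P : Fin (n + 1) → Polynomial (G Λ σ),
      (∀ (g : MvPolynomial (Fin (n + 1)) K) (d : ℕ), g.IsHomogeneous d →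
        ((MvPolynomial.aeval P g : Polynomial (G Λ σ)) = 0 ↔
          ∀ᶠ t in (σ.𝒰 : Filter ℕ), MvPolynomial.aeval (fun i => x i t) g = 0)) ∧
      (∀ t : AlgebraicClosure (G Λ σ), ∃ j,
        Polynomial.aeval t (MvPolynomial.aeval P (F j) : Polynomial (G Λ σ)) ≠ 0) ∧
      ((∃ i j, P i * Polynomial.C ((P j).eval 1) ≠ P j * Polynomial.C ((P i).eval 1)) ∨
        ∀ i, gm σ (x i) = ∑ q with nn q = 0, (A i q : G Λ σ)) := by
  classical
  obtain ⟨w0⟩ : Nonempty (∀ t, InfinitePlace (Λ t)) := inferInstance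
  obtain ⟨M, hM⟩ : ∃ M : ℕ, ∀ q i, 0 ≤ nn q i + M := by
    refine ⟨∑ q, ∑ i, (nn q i).natAbs, fun q i => ?_⟩
    have h1 : (nn q i).natAbs ≤ ∑ i, (nn q i).natAbs :=
      Finset.single_le_sum (f := fun i => (nn q i).natAbs) (fun _ _ => Nat.zero_le _)
        (Finset.mem_univ i)
    have h2 : ∑ i, (nn q i).natAbs ≤ ∑ q, ∑ i, (nn q i).natAbs :=
      Finset.single_le_sum (f := fun q => ∑ i, (nn q i).natAbs) (fun _ _ => Nat.zero_le _)
        (Finset.mem_univ q)
    have h3 : -(nn q i) ≤ ((nn q i).natAbs : ℤ) := by omega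
    have h4 : ((nn q i).natAbs : ℤ) ≤ ((∑ q, ∑ i, (nn q i).natAbs : ℕ) : ℤ) := by
      exact_mod_cast h1.trans h2
    omega
  set E0 : G Λ σ := pw e (fun _ => (M : ℤ)) with hE0
  have hE00 : E0 ≠ 0 := h.pw_ne _
  let m' : κ → Fin s →₀ ℕ := fun q => Finsupp.equivFunOnFinite.symm fun i => (nn q i + M).toNat
  have hm' : ∀ q, zz (m' q) = nn q + fun _ => (M : ℤ) := by
    intro q
    funext i
    show (((nn q i + M).toNat : ℕ) : ℤ) = nn q i + M
    exact Int.toNat_of_nonneg (hM q i)
  let R := MvPolynomial (Fin s) (FF Λ σ)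
  let φ : Fin (n + 1) → R := fun i => ∑ q, MvPolynomial.monomial (m' q) (A i q)
  let Xm : Fin (n + 1) → G Λ σ := fun i => ∑ q, (A i q : G Λ σ) * pw e (-nn q)
  have hφ : ∀ i, evg e (φ i) = E0 * gm σ (x i) := by
    intro i
    show evg e (∑ q, MvPolynomial.monomial (m' q) (A i q)) = _
    rw [map_sum, hx, Finset.mul_sum]
    refine Finset.sum_congr rfl fun q _ => ?_
    rw [evg_monomial, prod_zz, hm', pw_add e h.ne]
    ring
  have hφm : ∀ i, evg (fun i => (e i)⁻¹) (φ i) = E0⁻¹ * Xm i := by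
    intro i
    show evg (fun i => (e i)⁻¹) (∑ q, MvPolynomial.monomial (m' q) (A i q)) =
      E0⁻¹ * ∑ q, (A i q : G Λ σ) * pw e (-nn q)
    rw [map_sum, Finset.mul_sum]
    refine Finset.sum_congr rfl fun q _ => ?_
    rw [evg_monomial, prod_inv_zz, hm', neg_add, pw_add e h.ne, pw_neg e h.ne fun _ => (M : ℤ)]
    ring
  let κ0 : K →+* R := MvPolynomial.C.comp (algebraMap K (FF Λ σ))
  have hκ0 : ∀ e' : Fin s → G Λ σ, (evg e').comp κ0 = algebraMap K (G Λ σ) := by
    intro e'
    refine RingHom.ext fun z => ?_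
    show evg e' (MvPolynomial.C (algebraMap K (FF Λ σ) z)) = _
    rw [evg_C]
    rfl
  have hev : ∀ (g : MvPolynomial (Fin (n + 1)) K) (d : ℕ), g.IsHomogeneous d →
      evg e (g.eval₂ κ0 φ) = E0 ^ d * gm σ (fun t => MvPolynomial.aeval (fun i => x i t) g) := by
    intro g d hg
    rw [MvPolynomial.hom_eval₂, hκ0]
    have h2 : (fun i => (evg e) (φ i)) = fun i => E0 * gm σ (x i) := by
      funext i
      exact hφ i
    rw [h2, eval₂_smul _ g d hg, ← MvPolynomial.aeval_def, eval_gm]
  have hevm : ∀ (g : MvPolynomial (Fin (n + 1)) K) (d : ℕ), g.IsHomogeneous d →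
      evg (fun i => (e i)⁻¹) (g.eval₂ κ0 φ) * E0 ^ d = g.eval₂ (algebraMap K (G Λ σ)) Xm := by
    intro g d hg
    rw [MvPolynomial.hom_eval₂, hκ0]
    have h2 : (fun i => (evg (fun i => (e i)⁻¹)) (φ i)) = fun i => E0⁻¹ * Xm i := by
      funext i
      exact hφm i
    rw [h2, eval₂_smul _ g d hg, inv_pow]
    field_simp
  choose dF hdF0 hdF using hF
  let f : Fin w → R := fun j => (F j).eval₂ κ0 φ
  have hf : ∀ j, evg e (f j) =
      E0 ^ dF j * gm σ (fun t => MvPolynomial.aeval (fun i => x i t) (F j)) :=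
    fun j => hev _ _ (hdF j)
  have hfm : ∀ j, evg (fun i => (e i)⁻¹) (f j) * E0 ^ dF j =
      (F j).eval₂ (algebraMap K (G Λ σ)) Xm := fun j => hevm _ _ (hdF j)
  have hXm : ∀ w0 : ∀ t, InfinitePlace (Λ t), ∀ i, vw σ w0 (Xm i) ≤ 1 := by
    intro w0 i
    refine Valuation.map_sum_le _ fun q _ => ?_
    rw [map_mul]
    refine mul_le_one' (val_FF_le _ (A i q).2) ?_
    rw [h.le_one_iff, sum_neg]
    linarith [hnn q]
  -- weights
  obtain ⟨l, hl⟩ := exists_weights β h.pos nn
  have hlw : ∀ q, 0 ≤ ∑ i, nn q i * (l i : ℤ) ∧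
      (∑ i, nn q i * (l i : ℤ) = 0 → nn q = 0) := by
    intro q
    rcases (hnn q).lt_or_eq with h1 | h1
    · have h2 := hl q h1
      exact ⟨h2.le, fun h3 => absurd h3 h2.ne'⟩
    · have h2 := h.inj (nn q) h1.symm
      refine ⟨?_, fun _ => h2⟩
      rw [h2]
      simp
  let lw : κ → ℕ := fun q => (∑ i, nn q i * (l i : ℤ)).toNat
  let W : ℕ := M * ∑ i, l i
  have hwgt : ∀ q, wgt l (m' q) = lw q + W := by
    intro q
    have hWz : ((W : ℕ) : ℤ) = ∑ i, (M : ℤ) * (l i : ℤ) := by
      show ((M * ∑ i, l i : ℕ) : ℤ) = _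
      push_cast
      rw [Finset.mul_sum]
    have hlz : ((lw q : ℕ) : ℤ) = ∑ i, nn q i * (l i : ℤ) := Int.toNat_of_nonneg (hlw q).1
    have h1 : ((wgt l (m' q) : ℕ) : ℤ) = ((lw q + W : ℕ) : ℤ) := by
      unfold wgt
      push_cast
      rw [hlz, hWz, ← Finset.sum_add_distrib]
      refine Finset.sum_congr rfl fun i _ => ?_
      have h2 : ((m' q i : ℕ) : ℤ) = nn q i + M := congrFun (hm' q) i
      rw [h2]
      ring
    exact_mod_cast h1
  -- the fields
  let B := AlgebraicClosure (G Λ σ)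
  let ρ0 : R →+* G Λ σ := evg e
  have hρ0 : Function.Injective ρ0 := (injective_iff_map_eq_zero _).2 fun p hp => h.evg_inj p hp
  let ρ : R →+* B := (algebraMap (G Λ σ) B).comp ρ0
  have hρ : Function.Injective ρ := (algebraMap (G Λ σ) B).injective.comp hρ0
  let P0 : Fin (n + 1) → Polynomial (G Λ σ) := fun i =>
    ∑ q, Polynomial.C (ρ0 (MvPolynomial.monomial (m' q) (A i q))) * Polynomial.X ^ lw q
  let P : Fin (n + 1) → Polynomial B := fun i =>
    ∑ q, Polynomial.C (ρ (MvPolynomial.monomial (m' q) (A i q))) * Polynomial.X ^ lw q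
  have hPmap : ∀ i, (P0 i).map (algebraMap (G Λ σ) B) = P i := by
    intro i
    show (∑ q, Polynomial.C (ρ0 (MvPolynomial.monomial (m' q) (A i q))) *
      Polynomial.X ^ lw q).map (algebraMap (G Λ σ) B) = _
    rw [Polynomial.map_sum]
    refine Finset.sum_congr rfl fun q _ => ?_
    rw [Polynomial.map_mul, Polynomial.map_C, Polynomial.map_pow, Polynomial.map_X]
    rfl
  -- values of forms
  have hbase : (algebraMap (G Λ σ) B).comp (algebraMap K (G Λ σ)) = ρ.comp κ0 := by
    rw [← hκ0 e]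
    rfl
  have hval : ∀ (g : MvPolynomial (Fin (n + 1)) K) (t : B),
      Polynomial.aeval t (MvPolynomial.aeval P0 g : Polynomial (G Λ σ)) =
        g.eval₂ (ρ.comp κ0) (fun i => (P i).eval t) := by
    intro g t
    let ev : Polynomial (G Λ σ) →+* B := Polynomial.eval₂RingHom (algebraMap (G Λ σ) B) t
    show ev (g.eval₂ (algebraMap K (Polynomial (G Λ σ))) P0) = _
    rw [MvPolynomial.hom_eval₂]
    have h1 : ev.comp (algebraMap K (Polynomial (G Λ σ))) = ρ.comp κ0 := by
      rw [← hbase]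
      refine RingHom.ext fun z => ?_
      show (Polynomial.C (algebraMap K (G Λ σ) z)).eval₂ (algebraMap (G Λ σ) B) t = _
      rw [Polynomial.eval₂_C]
      rfl
    have h2 : (fun i => ev (P0 i)) = fun i => (P i).eval t := by
      funext i
      rw [← hPmap, Polynomial.eval_map]
      rfl
    rw [h1, h2]
  let τ : B → R →+* B := fun t => (Polynomial.eval₂RingHom ρ t).comp (Th l)
  have hτP : ∀ t i, t ^ W * (P i).eval t = τ t (φ i) := by
    intro t i
    show t ^ W * (∑ q, Polynomial.C (ρ (MvPolynomial.monomial (m' q) (A i q))) *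
      Polynomial.X ^ lw q).eval t = (Th l (∑ q, MvPolynomial.monomial (m' q) (A i q))).eval₂ ρ t
    rw [map_sum, Polynomial.eval_finsetSum, Polynomial.eval₂_finsetSum, Finset.mul_sum]
    refine Finset.sum_congr rfl fun q _ => ?_
    rw [Th_monomial, Polynomial.eval_mul, Polynomial.eval_C, Polynomial.eval_pow,
      Polynomial.eval_X, Polynomial.eval₂_mul, Polynomial.eval₂_C, Polynomial.eval₂_pow,
      Polynomial.eval₂_X, hwgt, pow_add]
    ring
  have hτ : ∀ (t : B) (g : MvPolynomial (Fin (n + 1)) K) (d : ℕ), g.IsHomogeneous d →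
      (t ^ W) ^ d * g.eval₂ (ρ.comp κ0) (fun i => (P i).eval t) = τ t (g.eval₂ κ0 φ) := by
    intro t g d hg
    rw [MvPolynomial.hom_eval₂, ← eval₂_smul _ g d hg]
    have h1 : (τ t).comp κ0 = ρ.comp κ0 := by
      refine RingHom.ext fun z => ?_
      show (Th l (MvPolynomial.C (algebraMap K (FF Λ σ) z))).eval₂ ρ t = _
      rw [Th_C, Polynomial.eval₂_C]
      rfl
    have h2 : (fun i => (τ t) (φ i)) = fun i => t ^ W * (P i).eval t := by
      funext i
      exact (hτP t i).symm
    rw [h1, h2]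
  have hτ1 : ∀ q : R, τ 1 q = ρ q := by
    intro q
    have h1 : τ 1 = ρ := by
      apply MvPolynomial.ringHom_ext
      · intro z
        show (Th l (MvPolynomial.C z)).eval₂ ρ 1 = _
        rw [Th_C, Polynomial.eval₂_C]
      · intro i
        show (Th l (MvPolynomial.X i)).eval₂ ρ 1 = _
        rw [Th_X]
        simp
    rw [h1]
  have hP1 : ∀ i, (P i).eval 1 = ρ (φ i) := by
    intro i
    rw [← hτ1, ← hτP, one_pow, one_mul]
  -- the value at zero
  let Cc : Fin (n + 1) → FF Λ σ := fun i => ∑ q with nn q = 0, A i q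
  have hP0 : ∀ i, (P i).eval 0 = ρ (MvPolynomial.monomial (cM s M) 1) *
      ρ (MvPolynomial.C (Cc i)) := by
    intro i
    rw [← map_mul, mul_comm, MvPolynomial.C_mul_monomial, mul_one]
    show (∑ q, Polynomial.C (ρ (MvPolynomial.monomial (m' q) (A i q))) *
      Polynomial.X ^ lw q).eval 0 = ρ (MvPolynomial.monomial (cM s M) (∑ q with nn q = 0, A i q))
    rw [Polynomial.eval_finsetSum, map_sum, map_sum, Finset.sum_filter]
    refine Finset.sum_congr rfl fun q _ => ?_
    rw [Polynomial.eval_mul, Polynomial.eval_C, Polynomial.eval_pow, Polynomial.eval_X]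
    split_ifs with h1
    · have h2 : lw q = 0 := by
        show (∑ i, nn q i * (l i : ℤ)).toNat = 0
        rw [h1]
        simp
      have h3 : m' q = cM s M := by
        apply zz_inj
        rw [hm', h1, zero_add]
        rfl
      rw [h2, pow_zero, mul_one, h3]
    · have h2 : lw q ≠ 0 := by
        intro h3
        apply h1
        apply (hlw q).2
        have h4 := (hlw q).1
        have h5 : (∑ i, nn q i * (l i : ℤ)).toNat = 0 := h3
        omega
      rw [zero_pow h2, mul_zero]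
  -- the boundary
  have hgmF : ∃ j1, gm σ (fun t => MvPolynomial.aeval (fun i => x i t) (F j1)) ≠ 0 := by
    choose jt hjt using hFx
    obtain ⟨j1, -, hj1⟩ := const_of_finite (σ := σ) jt Set.univ Set.finite_univ
      (Eventually.of_forall fun _ => Set.mem_univ _)
    refine ⟨j1, ?_⟩
    rw [gm_ne]
    filter_upwards [hj1] with t ht
    rw [← ht]
    exact hjt t
  have hF0 : ∀ t : B, ∃ j, (F j).eval₂ (ρ.comp κ0) (fun i => (P i).eval t) ≠ 0 := by
    intro t
    by_contra hno
    push Not at hno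
    by_cases ht : t = 0
    · -- the limit point
      subst ht
      have h1 : ∀ j, (F j).eval₂ (algebraMap K (FF Λ σ)) Cc = 0 := by
        intro j
        have h2 := hno j
        have h3 : (fun i => (P i).eval 0) = fun i => ρ (MvPolynomial.monomial (cM s M) 1) *
            ρ (MvPolynomial.C (Cc i)) := funext hP0
        rw [h3, eval₂_smul _ _ _ (hdF j)] at h2
        have h4 : ρ (MvPolynomial.monomial (cM s M) 1) ≠ 0 := by
          rw [Ne, map_eq_zero_iff ρ hρ, MvPolynomial.monomial_eq_zero]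
          exact one_ne_zero
        have h5 := (mul_eq_zero.1 h2).resolve_left (pow_ne_zero _ h4)
        have h6 : (F j).eval₂ (ρ.comp κ0) (fun i => ρ (MvPolynomial.C (Cc i))) =
            (ρ.comp MvPolynomial.C) ((F j).eval₂ (algebraMap K (FF Λ σ)) Cc) := by
          rw [MvPolynomial.hom_eval₂]
          rfl
        rw [h6] at h5
        have h7 : ρ (MvPolynomial.C ((F j).eval₂ (algebraMap K (FF Λ σ)) Cc)) = 0 := h5
        rw [map_eq_zero_iff ρ hρ, MvPolynomial.C_eq_zero] at h7
        exact h7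
      refine zero_contra h x Xm M F dF f hf hfm hFx hFs w0 fun j => ?_
      -- the residue
      let V := OO σ (aw w0)
      let ι0 : FF Λ σ →+* V := (FF Λ σ).subtype.codRestrict V.toSubring fun c =>
        FF_mem_OO w0 c.2
      let XV : Fin (n + 1) → V := fun i => ⟨Xm i, (V.valuation_le_one_iff _).1 (hXm w0 i)⟩
      let res := IsLocalRing.residue V
      have hres : ∀ i, res (XV i) = res (ι0 (Cc i)) := by
        intro i
        rw [← sub_eq_zero, ← map_sub]
        refine (IsLocalRing.residue_eq_zero_iff _).2 ?_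
        rw [V.valuation_lt_one_iff]
        have h2 : ((XV i - ι0 (Cc i) : V) : G Λ σ) =
            ∑ q with nn q ≠ 0, (A i q : G Λ σ) * pw e (-nn q) := by
          have h3 : ((XV i - ι0 (Cc i) : V) : G Λ σ) =
              ∑ q, (A i q : G Λ σ) * pw e (-nn q) - ((∑ q with nn q = 0, A i q : FF Λ σ) :
                G Λ σ) := rfl
          rw [h3, ← Finset.sum_filter_add_sum_filter_not Finset.univ (fun q => nn q = 0)
            (fun q => (A i q : G Λ σ) * pw e (-nn q))]
          have h4 : ∑ q with nn q = 0, (A i q : G Λ σ) * pw e (-nn q) =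
              ((∑ q with nn q = 0, A i q : FF Λ σ) : G Λ σ) := by
            rw [AddSubmonoidClass.coe_finsetSum]
            refine Finset.sum_congr rfl fun q hq => ?_
            rw [(Finset.mem_filter.1 hq).2, neg_zero, pw_zero e h.ne, mul_one]
          rw [h4]
          ring
        rw [h2]
        refine Valuation.map_sum_lt _ one_ne_zero fun q hq => ?_
        rw [map_mul]
        have h3 : vw σ w0 (pw e (-nn q)) < 1 := by
          apply h.lt_one
          rw [sum_neg]
          have h4 := lt_of_le_of_ne (hnn q) fun h5 => (Finset.mem_filter.1 hq).2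
            (h.inj _ h5.symm)
          linarith
        exact lt_of_le_of_lt ((mul_le_mul_left (val_FF_le _ (A i q).2) _).trans (one_mul _).le) h3
      have h8 : res ((F j).eval₂ (ι0.comp (algebraMap K (FF Λ σ))) XV) = 0 := by
        rw [MvPolynomial.hom_eval₂]
        have h9 : (fun i => res (XV i)) = fun i => res (ι0 (Cc i)) := funext hres
        rw [h9]
        have h10 : (F j).eval₂ (res.comp (ι0.comp (algebraMap K (FF Λ σ))))
            (fun i => res (ι0 (Cc i))) = (res.comp ι0) ((F j).eval₂ (algebraMap K (FF Λ σ)) Cc) := by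
          rw [MvPolynomial.hom_eval₂]
          rfl
        rw [h10, h1 j, map_zero]
      have h9 := (IsLocalRing.residue_eq_zero_iff _).1 h8
      rw [V.valuation_lt_one_iff] at h9
      have h10 : (((F j).eval₂ (ι0.comp (algebraMap K (FF Λ σ))) XV : V) : G Λ σ) =
          (F j).eval₂ (algebraMap K (G Λ σ)) Xm := by
        have h11 := MvPolynomial.hom_eval₂ (F j) (ι0.comp (algebraMap K (FF Λ σ)))
          (V.subtype) XV
        have h12 : (((F j).eval₂ (ι0.comp (algebraMap K (FF Λ σ))) XV : V) : G Λ σ) =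
          V.subtype ((F j).eval₂ (ι0.comp (algebraMap K (FF Λ σ))) XV) := rfl
        rw [h12, h11]
        rfl
      rw [h10] at h9
      exact h9
    · obtain ⟨j1, hj1⟩ := hgmF
      have hf1 : f j1 ≠ 0 := by
        intro h0
        have h1 := hf j1
        rw [h0, map_zero] at h1
        exact mul_ne_zero (pow_ne_zero _ hE00) hj1 h1.symm
      have hroot : ∀ j, (Th l (f j)).eval₂ ρ t = 0 := by
        intro j
        have h1 := hτ t (F j) (dF j) (hdF j)
        rw [hno j, mul_zero] at h1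
        exact h1.symm
      obtain ⟨q, hq, hqm⟩ := exists_factor l ρ hρ t ht f j1 hf1 hroot
      exact factor_contra h x φ Xm M F dF f hf hfm hXm hFx hFs q hq hqm
  refine ⟨P0, ?_, ?_, ?_⟩
  · -- the equations
    intro g d hg
    have hgm : g.eval₂ κ0 φ = 0 ↔
        ∀ᶠ t in (σ.𝒰 : Filter ℕ), MvPolynomial.aeval (fun i => x i t) g = 0 := by
      have h1 : (g.eval₂ κ0 φ = 0) ↔ evg e (g.eval₂ κ0 φ) = 0 :=
        ⟨fun h0 => by rw [h0, map_zero], fun h0 => h.evg_inj _ h0⟩
      rw [h1, hev g d hg, mul_eq_zero, or_iff_right (pow_ne_zero _ hE00)]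
      rw [← map_zero (gm σ), gm_eq]
      rfl
    rw [← hgm]
    constructor
    · intro h0
      apply hρ
      rw [map_zero, ← hτ1, ← hτ 1 g d hg, ← hval, h0, map_zero, mul_zero]
    · intro h0
      apply Polynomial.map_injective _ (algebraMap (G Λ σ) B).injective
      rw [Polynomial.map_zero]
      apply poly_zero
      intro t ht
      have h5 := hτ t g d hg
      rw [h0, map_zero] at h5
      have h6 := (mul_eq_zero.1 h5).resolve_left (pow_ne_zero _ (pow_ne_zero _ ht))
      rw [← hval] at h6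
      rw [Polynomial.eval_map_algebraMap]
      exact h6
  · intro t
    obtain ⟨j, hj⟩ := hF0 t
    refine ⟨j, ?_⟩
    rw [hval]
    exact hj
  by_cases hnc : ∃ i j, P0 i * Polynomial.C ((P0 j).eval 1) ≠ P0 j * Polynomial.C ((P0 i).eval 1)
  · exact Or.inl hnc
  right
  push Not at hnc
  have hnc' : ∀ (t : B) i j, (P i).eval t * (P j).eval 1 = (P j).eval t * (P i).eval 1 := by
    intro t i j
    have h1 := congrArg (fun p => (Polynomial.map (algebraMap (G Λ σ) B) p).eval t) (hnc i j)
    simp only [Polynomial.map_mul, Polynomial.map_C, hPmap, Polynomial.eval_mul,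
      Polynomial.eval_C] at h1
    have h2 : ∀ i, algebraMap (G Λ σ) B ((P0 i).eval 1) = (P i).eval 1 := by
      intro i
      rw [← hPmap, Polynomial.eval_one_map]
    rw [h2, h2] at h1
    exact h1
  obtain ⟨i0, hi0⟩ : ∃ i0, (P i0).eval 1 ≠ 0 := by
    by_contra hno
    push Not at hno
    obtain ⟨j, hj⟩ := hF0 1
    exact hj (zero_form _ (F j) (dF j) (hdF0 j) (hdF j) _ hno)
  have hno0 : ∀ t : B, (P i0).eval t ≠ 0 := by
    intro t ht
    obtain ⟨j, hj⟩ := hF0 t
    refine hj (zero_form _ (F j) (dF j) (hdF0 j) (hdF j) _ fun i => ?_)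
    have h1 := hnc' t i0 i
    rw [ht, zero_mul] at h1
    exact (mul_eq_zero.1 h1.symm).resolve_right hi0
  have hdeg : (P i0).degree = 0 := by
    by_contra hd
    obtain ⟨t, ht⟩ := IsAlgClosed.exists_root (P i0) hd
    exact hno0 t ht
  have hc := Polynomial.eq_C_of_degree_eq_zero hdeg
  have hcst : ∀ i t, (P i).eval t = (P i).eval 1 := by
    intro i t
    have h1 := hnc' t i i0
    have h2 : (P i0).eval t = (P i0).eval 1 := by
      rw [hc, Polynomial.eval_C, Polynomial.eval_C]
    rw [h2, mul_comm ((P i0).eval 1)] at h1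
    exact mul_right_cancel₀ hi0 h1
  intro i
  have h1 : φ i = MvPolynomial.monomial (cM s M) (Cc i) := by
    apply hρ
    rw [← hP1 i, ← hcst i 0, hP0 i, ← map_mul, mul_comm, MvPolynomial.C_mul_monomial, mul_one]
  have h2 := hφ i
  rw [h1, evg_monomial, prod_zz] at h2
  have h3 : zz (cM s M) = fun _ => (M : ℤ) := rfl
  rw [h3, mul_comm] at h2
  have h4 := mul_left_cancel₀ hE00 h2
  rw [← h4]
  show ((∑ q with nn q = 0, A i q : FF Λ σ) : G Λ σ) = _
  rw [AddSubmonoidClass.coe_finsetSum]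

end Pool.Agent.D0H97.FX
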