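import Pool.Agent.K1H83.VN.Val
import Pool.Agent.Helper259.HtExt

/-!
Germs of sequences of elements of number fields of bounded degree.
-/

set_option autoImplicit false
set_option linter.unusedSectionVars false
set_option linter.unusedSimpArgs false

namespace Pool.Agent.D0H97.FX

open NumberField IsDedekindDomain Height Filter Topology
open Pool.Agent.W180.OP (Pl av wt fv fv_support_finite wt_nonneg)
open Pool.Agent.K1H83.VN (Sc Sm L_pos two_le_exp const_of_finite abs_log_le')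

section germ

/-- the ideal of the sequences which vanish almost everywhere -/
def nul (Λ : ℕ → Type) [∀ t, Field (Λ t)] (σ : Sc) : Ideal (∀ t, Λ t) where
  carrier := {f | ∀ᶠ t in (σ.𝒰 : Filter ℕ), f t = 0}
  add_mem' := by
    intro a b ha hb
    filter_upwards [ha, hb] with t h1 h2
    rw [Pi.add_apply, h1, h2, add_zero]
  zero_mem' := Eventually.of_forall fun t => rfl
  smul_mem' := by
    intro c x hx
    filter_upwards [hx] with t h1
    rw [smul_eq_mul, Pi.mul_apply, h1, mul_zero]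

variable {Λ : ℕ → Type} [∀ t, Field (Λ t)] {σ : Sc}

theorem mem_nul (f : ∀ t, Λ t) : f ∈ nul Λ σ ↔ ∀ᶠ t in (σ.𝒰 : Filter ℕ), f t = 0 := Iff.rfl

instance nul_max : (nul Λ σ).IsMaximal := by
  rw [Ideal.isMaximal_iff]
  refine ⟨?_, ?_⟩
  · intro h
    obtain ⟨t, ht⟩ := ((mem_nul _).1 h).exists
    exact one_ne_zero ht
  · intro J f hJ hf hfJ
    have h1 : ∀ᶠ t in (σ.𝒰 : Filter ℕ), f t ≠ 0 := by
      rw [Ultrafilter.eventually_not]
      exact hf
    have h2 : 1 - (fun t => (f t)⁻¹) * f ∈ nul Λ σ := by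
      rw [mem_nul]
      filter_upwards [h1] with t ht
      rw [Pi.sub_apply, Pi.mul_apply, Pi.one_apply, inv_mul_cancel₀ ht, sub_self]
    have h3 : (1 : ∀ t, Λ t) = (1 - (fun t => (f t)⁻¹) * f) + (fun t => (f t)⁻¹) * f := by ring
    rw [h3]
    exact J.add_mem (hJ h2) (J.mul_mem_left _ hfJ)

variable (Λ σ) in
/-- the germs -/
def G : Type := (∀ t, Λ t) ⧸ nul Λ σ

variable (Λ σ) in
/-- the structure of a field -/
noncomputable def fld : Field (G Λ σ) := Ideal.Quotient.field (nul Λ σ)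

noncomputable instance : Field (G Λ σ) := fld Λ σ

/-- the germ of a sequence -/
noncomputable def gm (σ : Sc) : (∀ t, Λ t) →+* G Λ σ := Ideal.Quotient.mk (nul Λ σ)

theorem gm_eq (f g : ∀ t, Λ t) : gm σ f = gm σ g ↔ ∀ᶠ t in (σ.𝒰 : Filter ℕ), f t = g t := by
  show Ideal.Quotient.mk (nul Λ σ) f = Ideal.Quotient.mk (nul Λ σ) g ↔ _
  rw [Ideal.Quotient.eq, mem_nul]
  simp only [Pi.sub_apply, sub_eq_zero]

theorem gm_surj (x : G Λ σ) : ∃ f : ∀ t, Λ t, gm σ f = x := Ideal.Quotient.mk_surjective x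

/-- a representative -/
noncomputable def rep (x : G Λ σ) : ∀ t, Λ t := (gm_surj x).choose

theorem gm_rep (x : G Λ σ) : gm σ (rep x) = x := (gm_surj x).choose_spec

theorem rep_eq (x : G Λ σ) (f : ∀ t, Λ t) (h : x = gm σ f) :
    ∀ᶠ t in (σ.𝒰 : Filter ℕ), rep x t = f t := by
  rw [← gm_eq, gm_rep, h]

theorem rep_gm (f : ∀ t, Λ t) : ∀ᶠ t in (σ.𝒰 : Filter ℕ), rep (gm σ f) t = f t := rep_eq _ _ rfl

theorem rep_mul (x y : G Λ σ) : ∀ᶠ t in (σ.𝒰 : Filter ℕ), rep (x * y) t = rep x t * rep y t :=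
  rep_eq _ (fun t => rep x t * rep y t) (by
    show x * y = gm σ (rep x * rep y)
    rw [map_mul, gm_rep, gm_rep])

theorem rep_add (x y : G Λ σ) : ∀ᶠ t in (σ.𝒰 : Filter ℕ), rep (x + y) t = rep x t + rep y t :=
  rep_eq _ (fun t => rep x t + rep y t) (by
    show x + y = gm σ (rep x + rep y)
    rw [map_add, gm_rep, gm_rep])

theorem rep_neg (x : G Λ σ) : ∀ᶠ t in (σ.𝒰 : Filter ℕ), rep (-x) t = -rep x t :=
  rep_eq _ (fun t => -rep x t) (by
    show -x = gm σ (-rep x)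
    rw [map_neg, gm_rep])

theorem rep_zero : ∀ᶠ t in (σ.𝒰 : Filter ℕ), rep (0 : G Λ σ) t = 0 :=
  rep_eq _ (fun _ => 0) (by
    show 0 = gm σ 0
    rw [map_zero])

theorem rep_one : ∀ᶠ t in (σ.𝒰 : Filter ℕ), rep (1 : G Λ σ) t = 1 :=
  rep_eq _ (fun _ => 1) (by
    show 1 = gm σ 1
    rw [map_one])

theorem rep_sum {ι : Type} (s : Finset ι) (x : ι → G Λ σ) :
    ∀ᶠ t in (σ.𝒰 : Filter ℕ), rep (∑ i ∈ s, x i) t = ∑ i ∈ s, rep (x i) t := by
  refine rep_eq _ (fun t => ∑ i ∈ s, rep (x i) t) ?_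
  have h1 : (fun t => ∑ i ∈ s, rep (x i) t) = ∑ i ∈ s, rep (x i) := by
    funext t
    rw [Finset.sum_apply]
  rw [h1, map_sum]
  exact Finset.sum_congr rfl fun i _ => (gm_rep _).symm

theorem rep_prod {ι : Type} (s : Finset ι) (x : ι → G Λ σ) :
    ∀ᶠ t in (σ.𝒰 : Filter ℕ), rep (∏ i ∈ s, x i) t = ∏ i ∈ s, rep (x i) t := by
  refine rep_eq _ (fun t => ∏ i ∈ s, rep (x i) t) ?_
  have h1 : (fun t => ∏ i ∈ s, rep (x i) t) = ∏ i ∈ s, rep (x i) := by
    funext t
    rw [Finset.prod_apply]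
  rw [h1, map_prod]
  exact Finset.prod_congr rfl fun i _ => (gm_rep _).symm

theorem rep_pow (x : G Λ σ) (n : ℕ) : ∀ᶠ t in (σ.𝒰 : Filter ℕ), rep (x ^ n) t = rep x t ^ n :=
  rep_eq _ (fun t => rep x t ^ n) (by
    show x ^ n = gm σ (rep x ^ n)
    rw [map_pow, gm_rep])

theorem rep_ne (x : G Λ σ) (hx : x ≠ 0) : ∀ᶠ t in (σ.𝒰 : Filter ℕ), rep x t ≠ 0 := by
  rw [Ultrafilter.eventually_not]
  intro h
  apply hx
  rw [← gm_rep x]
  have h1 : (gm σ (rep x) : G Λ σ) = gm σ (fun _ => 0) := (gm_eq _ _).2 h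
  rw [h1]
  exact map_zero (gm σ)

theorem ne_of_rep (x : G Λ σ) (hx : ∀ᶠ t in (σ.𝒰 : Filter ℕ), rep x t ≠ 0) : x ≠ 0 := by
  rintro rfl
  have h0 : ∀ᶠ t in (σ.𝒰 : Filter ℕ), rep (0 : G Λ σ) t = 0 := rep_zero
  obtain ⟨t, h1, h2⟩ := (hx.and h0).exists
  exact h1 h2

theorem gm_ne (f : ∀ t, Λ t) : gm σ f ≠ 0 ↔ ∀ᶠ t in (σ.𝒰 : Filter ℕ), f t ≠ 0 := by
  constructor
  · intro h
    filter_upwards [rep_ne _ h, rep_gm f] with t h1 h2
    rwa [h2] at h1
  · intro h
    refine ne_of_rep _ ?_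
    filter_upwards [h, rep_gm f] with t h1 h2
    rwa [h2]

theorem rep_inv (x : G Λ σ) : ∀ᶠ t in (σ.𝒰 : Filter ℕ), rep x⁻¹ t = (rep x t)⁻¹ := by
  by_cases hx : x = 0
  · subst hx
    rw [inv_zero]
    filter_upwards [rep_zero (Λ := Λ) (σ := σ)] with t h
    rw [h, inv_zero]
  have h0 : ∀ᶠ t in (σ.𝒰 : Filter ℕ), rep (1 : G Λ σ) t = 1 := rep_one
  filter_upwards [rep_mul x x⁻¹, rep_ne x hx, h0] with t h1 h2 h3
  rw [mul_inv_cancel₀ hx, h3] at h1
  exact (inv_eq_of_mul_eq_one_right h1.symm).symm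

theorem rep_div (x y : G Λ σ) :
    ∀ᶠ t in (σ.𝒰 : Filter ℕ), rep (x / y) t = rep x t / rep y t := by
  rw [div_eq_mul_inv]
  filter_upwards [rep_mul x y⁻¹, rep_inv y] with t h1 h2
  rw [h1, h2, div_eq_mul_inv]


section const

variable {K : Type} [Field K] [∀ t, Algebra K (Λ t)]

/-- the germs of constants -/
noncomputable instance : Algebra K (G Λ σ) :=
  ((gm σ).comp (Pi.ringHom fun t => algebraMap K (Λ t))).toAlgebra

theorem alg_eq (c : K) : algebraMap K (G Λ σ) c = gm σ (fun t => algebraMap K (Λ t) c) := rfl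

theorem rep_alg (c : K) :
    ∀ᶠ t in (σ.𝒰 : Filter ℕ), rep (algebraMap K (G Λ σ) c) t = algebraMap K (Λ t) c :=
  rep_eq _ (fun t => algebraMap K (Λ t) c) rfl

/-- values of polynomials at germs -/
theorem eval_gm {ι : Type} (x : ι → ∀ t, Λ t) (g : MvPolynomial ι K) :
    MvPolynomial.aeval (fun i => gm σ (x i)) g =
      gm σ (fun t => MvPolynomial.aeval (fun i => x i t) g) := by
  have h1 : (fun t => MvPolynomial.aeval (fun i => x i t) g) =
      g.eval₂ (Pi.ringHom fun t => algebraMap K (Λ t)) x := by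
    funext t
    have h2 := MvPolynomial.hom_eval₂ g (Pi.ringHom fun t => algebraMap K (Λ t))
      (Pi.evalRingHom (fun t => Λ t) t) x
    have h3 : (Pi.evalRingHom (fun t => Λ t) t)
        (g.eval₂ (Pi.ringHom fun t => algebraMap K (Λ t)) x) =
        g.eval₂ (Pi.ringHom fun t => algebraMap K (Λ t)) x t := rfl
    rw [← h3, h2]
    rfl
  rw [h1]
  have h4 := MvPolynomial.hom_eval₂ g (Pi.ringHom fun t => algebraMap K (Λ t)) (gm σ) x
  rw [h4]
  rfl

end const

end germ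

/-- the degrees are bounded -/
class Bdd (Λ : ℕ → Type) [∀ t, Field (Λ t)] [∀ t, NumberField (Λ t)] : Prop where
  out : ∃ r : ℕ, ∀ t, Module.finrank ℚ (Λ t) ≤ r

section fields

variable (Λ : ℕ → Type) [∀ t, Field (Λ t)] [∀ t, NumberField (Λ t)] [Bdd Λ] (σ : Sc)

/-- the germs of small height -/
noncomputable def FF : Subfield (G Λ σ) where
  carrier := {x | Sm σ fun t => logHeight₁ (rep x t)}
  mul_mem' := by
    intro x y hx hy
    refine (Sm.add hx hy).mono ?_
    filter_upwards [rep_mul x y] with t ht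
    rw [ht]
    exact logHeight₁_mul_le _ _
  one_mem' := by
    refine (Sm.const 0).mono ?_
    filter_upwards [rep_one (Λ := Λ) (σ := σ)] with t ht
    rw [ht, logHeight₁_one]
  add_mem' := by
    intro x y hx hy
    obtain ⟨r, hr⟩ := Bdd.out (Λ := Λ)
    refine ((Sm.const ((r : ℝ) * Real.log 2)).add (Sm.add hx hy)).mono ?_
    filter_upwards [rep_add x y] with t ht
    rw [ht]
    have h1 := logHeight₁_add_le (rep x t) (rep y t)
    have h2 : (totalWeight (Λ t) : ℝ) * Real.log 2 ≤ (r : ℝ) * Real.log 2 := by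
      refine mul_le_mul_of_nonneg_right ?_ (Real.log_nonneg (by norm_num))
      rw [totalWeight_eq_finrank]
      exact_mod_cast hr t
    linarith
  zero_mem' := by
    refine (Sm.const 0).mono ?_
    filter_upwards [rep_zero (Λ := Λ) (σ := σ)] with t ht
    rw [ht, logHeight₁_zero]
  neg_mem' := by
    intro x hx
    refine Sm.mono hx ?_
    filter_upwards [rep_neg x] with t ht
    rw [ht, logHeight₁_neg]
  inv_mem' := by
    intro x hx
    refine Sm.mono hx ?_
    filter_upwards [rep_inv x] with t ht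
    rw [ht, logHeight₁_inv]


variable {Λ} {σ}

theorem mem_FF (x : G Λ σ) : x ∈ FF Λ σ ↔ Sm σ fun t => logHeight₁ (rep x t) := Iff.rfl

theorem gm_mem_FF (f : ∀ t, Λ t) : gm σ f ∈ FF Λ σ ↔ Sm σ fun t => logHeight₁ (f t) := by
  rw [mem_FF]
  constructor
  · intro h
    refine h.mono ?_
    filter_upwards [rep_gm f] with t ht
    rw [ht]
  · intro h
    refine h.mono ?_
    filter_upwards [rep_gm f] with t ht
    rw [ht]

theorem root_mem (x : G Λ σ) (n : ℕ) (hn : n ≠ 0) (h : x ^ n ∈ FF Λ σ) : x ∈ FF Λ σ := by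
  rw [mem_FF] at h ⊢
  refine h.mono ?_
  filter_upwards [rep_pow x n] with t ht
  rw [ht, logHeight₁_pow]
  have h1 : (1 : ℝ) ≤ n := by exact_mod_cast Nat.one_le_iff_ne_zero.2 hn
  exact le_mul_of_one_le_left (zero_le_logHeight₁ _) h1

section const

variable {K : Type} [Field K] [NumberField K] [∀ t, Algebra K (Λ t)]

theorem ht_alg {L : Type} [Field L] [NumberField L] [Algebra K L] (c : K) :
    logHeight₁ (algebraMap K L c) = Module.finrank K L * logHeight₁ c := by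
  rw [logHeight₁_eq_logHeight, logHeight₁_eq_logHeight, ← Pool.Agent.Helper259.HtExt.logHeight_ext]
  congr 1
  funext i
  fin_cases i
  · rfl
  · exact (map_one _).symm

theorem alg_mem (c : K) : algebraMap K (G Λ σ) c ∈ FF Λ σ := by
  obtain ⟨r, hr⟩ := Bdd.out (Λ := Λ)
  rw [alg_eq, gm_mem_FF]
  refine (Sm.const ((r : ℝ) * logHeight₁ c)).mono (Eventually.of_forall fun t => ?_)
  rw [ht_alg]
  refine mul_le_mul_of_nonneg_right ?_ (zero_le_logHeight₁ _)
  have h1 : Module.finrank K (Λ t) ≤ Module.finrank ℚ (Λ t) := by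
    rw [← Module.finrank_mul_finrank ℚ K (Λ t)]
    exact Nat.le_mul_of_pos_left _ Module.finrank_pos
  exact_mod_cast h1.trans (hr t)

noncomputable instance : Algebra K (FF Λ σ) :=
  ((algebraMap K (G Λ σ)).codRestrict (FF Λ σ) alg_mem).toAlgebra

theorem coe_alg (c : K) :
    ((algebraMap K (FF Λ σ) c : FF Λ σ) : G Λ σ) = algebraMap K (G Λ σ) c := rfl

end const

end fields

section val

variable {Λ : ℕ → Type} [∀ t, Field (Λ t)] {σ : Sc}

/-- the germs of size at most `exp (o(L))` for the absolute value `w` -/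
noncomputable def OO (σ : Sc) (w : ∀ t, AbsoluteValue (Λ t) ℝ) : ValuationSubring (G Λ σ) where
  carrier := {g | ∀ ε : ℝ, 0 < ε → ∀ᶠ t in (σ.𝒰 : Filter ℕ), w t (rep g t) ≤ Real.exp (ε * σ.L t)}
  mul_mem' := by
    intro a b ha hb ε hε
    filter_upwards [ha (ε / 2) (by positivity), hb (ε / 2) (by positivity), rep_mul a b]
      with n h1 h2 h3
    rw [h3, map_mul]
    calc w n (rep a n) * w n (rep b n) ≤ Real.exp (ε / 2 * σ.L n) * Real.exp (ε / 2 * σ.L n) :=
          mul_le_mul h1 h2 ((w n).nonneg _) (Real.exp_pos _).le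
      _ = Real.exp (ε * σ.L n) := by rw [← Real.exp_add]; ring_nf
  one_mem' := by
    intro ε hε
    filter_upwards [L_pos (σ := σ), rep_one (Λ := Λ) (σ := σ)] with n hn h1
    rw [h1, map_one]
    exact Real.one_le_exp (by positivity)
  add_mem' := by
    intro a b ha hb ε hε
    filter_upwards [ha (ε / 2) (by positivity), hb (ε / 2) (by positivity), rep_add a b,
      two_le_exp σ (show 0 < ε / 2 by positivity)] with n h1 h2 h4 h3
    rw [h4]
    calc w n (rep a n + rep b n) ≤ w n (rep a n) + w n (rep b n) := (w n).add_le _ _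
      _ ≤ Real.exp (ε / 2 * σ.L n) + Real.exp (ε / 2 * σ.L n) := add_le_add h1 h2
      _ = 2 * Real.exp (ε / 2 * σ.L n) := by ring
      _ ≤ Real.exp (ε / 2 * σ.L n) * Real.exp (ε / 2 * σ.L n) := by gcongr
      _ = Real.exp (ε * σ.L n) := by rw [← Real.exp_add]; ring_nf
  zero_mem' := by
    intro ε hε
    filter_upwards [rep_zero (Λ := Λ) (σ := σ)] with n hn
    rw [hn, map_zero]
    exact (Real.exp_pos _).le
  neg_mem' := by
    intro a ha ε hε
    filter_upwards [ha ε hε, rep_neg a] with n hn h1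
    rw [h1, (w n).map_neg]
    exact hn
  mem_or_inv_mem' := by
    intro x
    by_cases h : ∀ ε : ℝ, 0 < ε → ∀ᶠ n in (σ.𝒰 : Filter ℕ), w n (rep x n) ≤ Real.exp (ε * σ.L n)
    · exact Or.inl h
    · right
      push Not at h
      obtain ⟨ε, hε, h⟩ := h
      have h' : ∀ᶠ n in (σ.𝒰 : Filter ℕ), Real.exp (ε * σ.L n) < w n (rep x n) := h
      intro ε' hε'
      filter_upwards [h', L_pos (σ := σ), rep_inv x] with n h2 h3 h6
      rw [h6, map_inv₀]
      have h4 : (1 : ℝ) ≤ Real.exp (ε * σ.L n) := Real.one_le_exp (by positivity)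
      have h5 : (1 : ℝ) ≤ Real.exp (ε' * σ.L n) := Real.one_le_exp (by positivity)
      exact (inv_le_one_of_one_le₀ (h4.trans h2.le)).trans h5

variable (w : ∀ t, AbsoluteValue (Λ t) ℝ)

theorem mem_OO (x : G Λ σ) : x ∈ OO σ w ↔
    ∀ ε : ℝ, 0 < ε → ∀ᶠ n in (σ.𝒰 : Filter ℕ), w n (rep x n) ≤ Real.exp (ε * σ.L n) := Iff.rfl

/-- inequality of valuations, in terms of sequences -/
theorem val_le {x y : G Λ σ} (h : (OO σ w).valuation x ≤ (OO σ w).valuation y)
    (ε : ℝ) (hε : 0 < ε) :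
    ∀ᶠ n in (σ.𝒰 : Filter ℕ), w n (rep x n) ≤ w n (rep y n) * Real.exp (ε * σ.L n) := by
  by_cases hb : y = 0
  · rw [hb, map_zero] at h
    have h1 : x = 0 := by
      have := le_antisymm h zero_le
      rwa [map_eq_zero] at this
    subst h1
    filter_upwards [rep_zero (Λ := Λ) (σ := σ)] with n hn
    rw [hn, map_zero]
    have := (w n).nonneg (rep y n)
    positivity
  · have h1 : (OO σ w).valuation (x / y) ≤ 1 := by
      rw [map_div₀]
      exact div_le_one_of_le₀ h zero_le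
    rw [ValuationSubring.valuation_le_one_iff, mem_OO] at h1
    filter_upwards [h1 ε hε, rep_ne _ hb, rep_div x y] with n h2 h3 h4
    rw [h4, map_div₀, div_le_iff₀ ((w n).pos h3)] at h2
    linarith

theorem le_val {x y : G Λ σ} (h : ∀ ε : ℝ, 0 < ε → ∀ᶠ n in (σ.𝒰 : Filter ℕ),
    w n (rep x n) ≤ w n (rep y n) * Real.exp (ε * σ.L n)) :
    (OO σ w).valuation x ≤ (OO σ w).valuation y := by
  by_cases hb : y = 0
  · subst hb
    have h1 : x = 0 := by
      by_contra hx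
      obtain ⟨n, h2, h3, h4⟩ := ((h 1 one_pos).and ((rep_ne x hx).and
        (rep_zero (Λ := Λ) (σ := σ)))).exists
      rw [h4, map_zero, zero_mul] at h2
      exact h3 (((w n).eq_zero).1 (le_antisymm h2 ((w n).nonneg _)))
    rw [h1]
  · have h1 : x / y ∈ OO σ w := by
      rw [mem_OO]
      intro ε hε
      filter_upwards [h ε hε, rep_ne _ hb, rep_div x y] with n h2 h3 h4
      rw [h4, map_div₀, div_le_iff₀ ((w n).pos h3)]
      linarith
    rw [← ValuationSubring.valuation_le_one_iff, map_div₀] at h1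
    have h2 : 0 < (OO σ w).valuation y := by
      rw [zero_lt_iff]
      exact (Valuation.ne_zero_iff _).2 hb
    rwa [div_le_one₀ h2] at h1


end val

section inf

variable {Λ : ℕ → Type} [∀ t, Field (Λ t)] [∀ t, NumberField (Λ t)] {σ : Sc}

/-- a sequence of infinite places -/
noncomputable def aw (w : ∀ t, InfinitePlace (Λ t)) (t : ℕ) : AbsoluteValue (Λ t) ℝ :=
  av (Sum.inl (w t) : Pl (Λ t))

/-- the logarithm of the absolute value -/
noncomputable def lv (w : ∀ t, InfinitePlace (Λ t)) (x : G Λ σ) (t : ℕ) : ℝ :=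
  Real.log (aw w t (rep x t))

variable [Bdd Λ]

theorem FF_mem_OO (w : ∀ t, InfinitePlace (Λ t)) {x : G Λ σ} (hx : x ∈ FF Λ σ) :
    x ∈ OO σ (aw w) := by
  by_cases h0 : x = 0
  · subst h0
    exact (OO σ (aw w)).zero_mem
  rw [mem_OO]
  intro ε hε
  filter_upwards [hx ε hε, rep_ne x h0] with t h1 h2
  rw [← Real.log_le_iff_le_exp ((aw w t).pos h2)]
  exact (le_abs_self _).trans ((abs_log_le' (Sum.inl (w t) : Pl (Λ t)) _ h2).trans h1)

theorem val_FF_le (w : ∀ t, InfinitePlace (Λ t)) {x : G Λ σ} (hx : x ∈ FF Λ σ) :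
    (OO σ (aw w)).valuation x ≤ 1 :=
  ((OO σ (aw w)).valuation_le_one_iff x).2 (FF_mem_OO w hx)

theorem val_FF (w : ∀ t, InfinitePlace (Λ t)) {x : G Λ σ} (hx : x ∈ FF Λ σ) (h0 : x ≠ 0) :
    (OO σ (aw w)).valuation x = 1 := by
  apply le_antisymm (val_FF_le w hx)
  have h1 := val_FF_le w ((FF Λ σ).inv_mem hx)
  rw [map_inv₀] at h1
  have h2 : 0 < (OO σ (aw w)).valuation x := by
    rw [zero_lt_iff]
    exact (Valuation.ne_zero_iff _).2 h0
  rwa [inv_le_one₀ h2] at h1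

end inf

end Pool.Agent.D0H97.FX
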