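import Pool.Agent.D0H97.FT.Near
import Pool.Agent.D0H97.FX.Gr

/-!
Near integers: germs whose denominators are small.
-/

set_option autoImplicit false
set_option linter.unusedSectionVars false

namespace Pool.Agent.D0H97.FX

open NumberField IsDedekindDomain Height Filter Topology
open Pool.Agent.W180.OP (Pl av wt fv fv_support_finite wt_nonneg)
open Pool.Agent.K1H83.VN (Sc Sm L_pos two_le_exp const_of_finite abs_log_le' nm le_nm nm_le
  nm_nonneg nm_unit ho c1 ne_of_coord ne_of_one ho_mul_le prod_formula logHeight_split)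
open Pool.Agent.D0H97.FT (Si hSi inr_Si mem_Si v10 dn nm_pair dn_nonneg dn_le_height dn_mul dn_add
  dn_neg ho_c1_le dg one_le_dg)

theorem dg_eq (k : Type) [Field k] [NumberField k] : dg k = Module.finrank ℚ k := by
  unfold dg Si
  rw [Finset.sum_map, ← InfinitePlace.sum_mult_eq]
  push_cast
  rfl

section germ

variable {Λ : ℕ → Type} [∀ t, Field (Λ t)] [∀ t, NumberField (Λ t)] {σ : Sc}

/-- the near integers -/
noncomputable def NI (Λ : ℕ → Type) [∀ t, Field (Λ t)] [∀ t, NumberField (Λ t)] (σ : Sc) :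
    Subring (G Λ σ) where
  carrier := {x | Sm σ fun t => dn (rep x t)}
  mul_mem' := by
    intro x y hx hy
    refine (Sm.add hx hy).mono ?_
    filter_upwards [rep_mul x y] with t ht
    rw [ht]
    exact dn_mul _ _
  one_mem' := by
    refine (Sm.const 0).mono ?_
    filter_upwards [rep_one (Λ := Λ) (σ := σ)] with t ht
    rw [ht]
    exact (dn_le_height 1).trans (le_of_eq logHeight₁_one)
  add_mem' := by
    intro x y hx hy
    refine (Sm.add hx hy).mono ?_
    filter_upwards [rep_add x y] with t ht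
    rw [ht]
    exact dn_add _ _
  zero_mem' := by
    refine (Sm.const 0).mono ?_
    filter_upwards [rep_zero (Λ := Λ) (σ := σ)] with t ht
    rw [ht]
    exact (dn_le_height 0).trans (le_of_eq logHeight₁_zero)
  neg_mem' := by
    intro x hx
    refine Sm.mono hx ?_
    filter_upwards [rep_neg x] with t ht
    rw [ht, dn_neg]

theorem mem_NI (x : G Λ σ) : x ∈ NI Λ σ ↔ Sm σ fun t => dn (rep x t) := Iff.rfl

theorem gm_mem_NI (f : ∀ t, Λ t) (h : Sm σ fun t => dn (f t)) : gm σ f ∈ NI Λ σ := by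
  rw [mem_NI]
  refine h.mono ?_
  filter_upwards [rep_gm f] with t ht
  rw [ht]

variable [Bdd Λ]

theorem FF_NI {x : G Λ σ} (hx : x ∈ FF Λ σ) : x ∈ NI Λ σ := by
  rw [mem_NI]
  rw [mem_FF] at hx
  exact hx.mono (Eventually.of_forall fun t => dn_le_height _)

theorem exists_dg : ∃ r : ℝ, 0 < r ∧ ∀ t, dg (Λ t) ≤ r := by
  obtain ⟨r, hr⟩ := Bdd.out (Λ := Λ)
  refine ⟨r + 1, by positivity, fun t => ?_⟩
  rw [dg_eq]
  have : (Module.finrank ℚ (Λ t) : ℝ) ≤ r := by exact_mod_cast hr t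
  linarith

/-- near integers with small absolute values are small -/
theorem FF_of_NI {x : G Λ σ} (hx : x ∈ NI Λ σ)
    (h : ∀ w : ∀ t, InfinitePlace (Λ t), (OO σ (aw w)).valuation x ≤ 1) : x ∈ FF Λ σ := by
  classical
  rw [mem_FF]
  rw [mem_NI] at hx
  obtain ⟨r, hr0, hr⟩ := exists_dg (Λ := Λ)
  -- the places with the largest values
  have hmax : ∀ t, ∃ w : InfinitePlace (Λ t), ∀ w' : InfinitePlace (Λ t),
      av (Sum.inl w' : Pl (Λ t)) (rep x t) ≤ av (Sum.inl w : Pl (Λ t)) (rep x t) := fun t =>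
    Finite.exists_max fun w : InfinitePlace (Λ t) => av (Sum.inl w : Pl (Λ t)) (rep x t)
  choose w hw using hmax
  have h1 : Sm σ fun t => ∑ v ∈ Si (Λ t), wt v * Real.log (nm (av v) ![rep x t, 1]) := by
    intro ε hε
    have h2 : x ∈ OO σ (aw w) := ((OO σ _).valuation_le_one_iff x).1 (h w)
    rw [mem_OO] at h2
    filter_upwards [h2 (ε / r) (by positivity), L_pos (σ := σ)] with t h3 h4
    calc ∑ v ∈ Si (Λ t), wt v * Real.log (nm (av v) ![rep x t, 1])
        ≤ ∑ v ∈ Si (Λ t), wt v * (ε / r * σ.L t) := by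
          refine Finset.sum_le_sum fun v hv => mul_le_mul_of_nonneg_left ?_ (wt_nonneg _)
          obtain ⟨w', rfl⟩ := mem_Si hv
          rw [nm_pair]
          have h5 : max (av (Sum.inl w' : Pl (Λ t)) (rep x t)) 1 ≤ Real.exp (ε / r * σ.L t) :=
            max_le ((hw t w').trans h3) (Real.one_le_exp (by positivity))
          rw [Real.log_le_iff_le_exp (lt_of_lt_of_le one_pos (le_max_right _ _))]
          exact h5
      _ = dg (Λ t) * (ε / r * σ.L t) := by
          unfold dg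
          rw [Finset.sum_mul]
      _ ≤ r * (ε / r * σ.L t) := mul_le_mul_of_nonneg_right (hr t) (by positivity)
      _ = ε * σ.L t := by field_simp
  refine (h1.add hx).mono (Eventually.of_forall fun t => ?_)
  rw [logHeight₁_eq_logHeight, logHeight_split (Si (Λ t)) hSi _ (v10 _)]
  rfl

/-- **Common divisors.** -/
theorem gcd_contra {w' : ℕ} (y R : Fin w' → G Λ σ) (q : G Λ σ) (hq : q ≠ 0)
    (hR : ∀ j, R j ∈ NI Λ σ) (hy : ∀ j, y j = q * R j) (hy0 : ∃ j, y j ≠ 0) (c0 : ℝ) (hc0 : 0 < c0)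
    (hbig : ∀ᶠ t in (σ.𝒰 : Filter ℕ), ∀ w : InfinitePlace (Λ t),
      c0 * σ.L t ≤ Real.log (av (Sum.inl w : Pl (Λ t)) (rep q t)))
    (hsm : Sm σ fun t => -ho (Si (Λ t)) fun j => rep (y j) t) : False := by
  obtain ⟨j0, hj0⟩ := hy0
  have h1 : Sm σ fun t => ∑ j, dn (rep (R j) t) := Sm.sum _ fun j _ => hR j
  have h2 : ∀ᶠ t in (σ.𝒰 : Filter ℕ), ∀ j, rep (y j) t = rep q t * rep (R j) t := by
    rw [Filter.eventually_all]
    intro j
    rw [hy j]
    exact rep_mul _ _
  obtain ⟨t, e1, e2, e3, e4, e5, e6, e7⟩ := ((h1 (c0 / 4) (by positivity)).and (h2.and (hbig.and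
    ((rep_ne q hq).and ((rep_ne _ hj0).and ((hsm (c0 / 4) (by positivity)).and
      (L_pos (σ := σ)))))))).exists
  have h4 : ho (Si (Λ t)) (fun j => rep (y j) t) ≤ ho (Si (Λ t)) (fun _ : Unit => rep q t) +
      ho (Si (Λ t)) (c1 fun j => rep (R j) t) := by
    refine ho_mul_le _ _ (ne_of_coord (i := j0) e5) _ (ne_of_coord (i := ()) e4) _
      (ne_of_one _ none rfl) fun v _ => ?_
    refine nm_le _ (mul_nonneg (nm_nonneg _ _) (nm_nonneg _ _)) fun j => ?_
    rw [e2 j, map_mul, nm_unit]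
    exact mul_le_mul_of_nonneg_left (le_nm (fv v) (c1 fun j => rep (R j) t) (some j))
      ((fv v).nonneg _)
  have h5 := ho_c1_le fun j => rep (R j) t
  have h6 := prod_formula (Si (Λ t)) hSi _ e4
  have h7 : dg (Λ t) * (c0 * σ.L t) ≤ ∑ v ∈ Si (Λ t), wt v * Real.log (av v (rep q t)) := by
    unfold dg
    rw [Finset.sum_mul]
    refine Finset.sum_le_sum fun v hv => ?_
    obtain ⟨w, rfl⟩ := mem_Si hv
    exact mul_le_mul_of_nonneg_left (e3 w) (wt_nonneg _)
  have h8 : c0 * σ.L t ≤ dg (Λ t) * (c0 * σ.L t) :=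
    le_mul_of_one_le_left (by positivity) one_le_dg
  have h9 : 0 < c0 * σ.L t := by positivity
  linarith

end germ

end Pool.Agent.D0H97.FX
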