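import Pool.Agent.D0H97.FT.Dom
import Pool.Agent.D0H97.FX.Nr

/-!
Dominant monomials and near integral values of Laurent polynomials.
-/

set_option autoImplicit false
set_option linter.unusedSectionVars false

namespace Pool.Agent.D0H97.FX

open NumberField IsDedekindDomain Height Filter Topology
open Pool.Agent.W180.OP (Pl av wt fv fv_support_finite wt_nonneg)
open Pool.Agent.K1H83.VN (Sc Sm L_pos two_le_exp const_of_finite abs_log_le' nm le_nm nm_le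
  nm_nonneg nm_unit ho c1 ne_of_coord ne_of_one ho_mul_le prod_formula logHeight_split)
open Pool.Agent.D0H85.SP (pw pw_ne pw_add pw_neg pw_zero pw_zsmul)
open Pool.Agent.D0H97.FT (Si hSi inr_Si mem_Si v10 dn nm_pair dn_nonneg dn_le_height dn_mul dn_add
  dn_neg ho_c1_le dg one_le_dg zz zz_inj)

section base

variable {Λ : ℕ → Type} [∀ t, Field (Λ t)] [∀ t, NumberField (Λ t)] [Bdd Λ] {σ : Sc} {s : ℕ}

/-- evaluation at germs -/
noncomputable def evg (e : Fin s → G Λ σ) : MvPolynomial (Fin s) (FF Λ σ) →+* G Λ σ :=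
  MvPolynomial.eval₂Hom (FF Λ σ).subtype e

theorem evg_C (e : Fin s → G Λ σ) (c : FF Λ σ) : evg e (MvPolynomial.C c) = (c : G Λ σ) := by
  unfold evg
  rw [MvPolynomial.coe_eval₂Hom, MvPolynomial.eval₂_C]
  rfl

theorem evg_monomial (e : Fin s → G Λ σ) (m : Fin s →₀ ℕ) (c : FF Λ σ) :
    evg e (MvPolynomial.monomial m c) = (c : G Λ σ) * ∏ i, e i ^ m i := by
  unfold evg
  rw [MvPolynomial.coe_eval₂Hom, MvPolynomial.eval₂_monomial, Finsupp.prod_fintype _ _ (by simp)]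
  rfl

theorem evg_eq (e : Fin s → G Λ σ) (p : MvPolynomial (Fin s) (FF Λ σ)) :
    evg e p = ∑ m : p.support, ((p.coeff m.1 : FF Λ σ) : G Λ σ) * ∏ i, e i ^ m.1 i := by
  conv_lhs => rw [MvPolynomial.as_sum p]
  rw [map_sum, ← Finset.sum_coe_sort p.support
    (fun m => evg e (MvPolynomial.monomial m (p.coeff m)))]
  exact Finset.sum_congr rfl fun m _ => evg_monomial e _ _

theorem prod_zz (e : Fin s → G Λ σ) (m : Fin s →₀ ℕ) : ∏ i, e i ^ m i = pw e (zz m) := by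
  unfold pw zz
  exact Finset.prod_congr rfl fun i _ => (zpow_natCast _ _).symm

theorem prod_inv_zz (e : Fin s → G Λ σ) (m : Fin s →₀ ℕ) :
    ∏ i, (e i)⁻¹ ^ m i = pw e (-zz m) := by
  unfold pw zz
  refine Finset.prod_congr rfl fun i _ => ?_
  rw [Pi.neg_apply, zpow_neg, zpow_natCast, inv_pow]

/-- one term dominates the others -/
theorem dom {Γ : Type} [LinearOrderedCommGroupWithZero Γ] (v : Valuation (G Λ σ) Γ)
    (hv : ∀ c ∈ FF Λ σ, c ≠ 0 → v c = 1) (e : Fin s → G Λ σ) (he0 : ∀ i, e i ≠ 0)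
    (hinj : ∀ m m' : Fin s →₀ ℕ, v (∏ i, e i ^ m i) = v (∏ i, e i ^ m' i) → m = m')
    (p : MvPolynomial (Fin s) (FF Λ σ)) (hp : p ≠ 0) :
    ∃ m0 ∈ p.support, v (evg e p) = v (∏ i, e i ^ m0 i) ∧
      ∀ m ∈ p.support, v (∏ i, e i ^ m i) ≤ v (∏ i, e i ^ m0 i) := by
  classical
  have hne : p.support.Nonempty := by
    rw [Finset.nonempty_iff_ne_empty]
    intro h
    exact hp (MvPolynomial.support_eq_empty.1 h)
  obtain ⟨m0, hm0, hmax⟩ := Finset.exists_max_image p.support (fun m => v (∏ i, e i ^ m i)) hne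
  refine ⟨m0, hm0, ?_, hmax⟩
  have h1 : evg e p = ∑ m ∈ p.support, ((p.coeff m : FF Λ σ) : G Λ σ) * ∏ i, e i ^ m i := by
    conv_lhs => rw [MvPolynomial.as_sum p]
    rw [map_sum]
    exact Finset.sum_congr rfl fun m _ => evg_monomial e _ _
  have hterm : ∀ m ∈ p.support, v (((p.coeff m : FF Λ σ) : G Λ σ) * ∏ i, e i ^ m i) =
      v (∏ i, e i ^ m i) := by
    intro m hm
    rw [map_mul, hv _ (p.coeff m).2 fun h => MvPolynomial.mem_support_iff.1 hm (Subtype.ext h),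
      one_mul]
  have hg0 : v (∏ i, e i ^ m0 i) ≠ 0 :=
    (Valuation.ne_zero_iff _).2 (Finset.prod_ne_zero_iff.2 fun i _ => pow_ne_zero _ (he0 i))
  have h2 : v (∑ m ∈ p.support.erase m0, ((p.coeff m : FF Λ σ) : G Λ σ) * ∏ i, e i ^ m i) <
      v (((p.coeff m0 : FF Λ σ) : G Λ σ) * ∏ i, e i ^ m0 i) := by
    rw [hterm m0 hm0]
    refine Valuation.map_sum_lt v hg0 fun m hm => ?_
    rw [Finset.mem_erase] at hm
    rw [hterm m hm.2]
    refine lt_of_le_of_ne (hmax m hm.2) fun h => hm.1 (hinj _ _ h)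
  rw [h1, ← Finset.add_sum_erase _ _ hm0, Valuation.map_add_eq_of_lt_left v h2]
  exact hterm m0 hm0

/-- the valuation at an infinite place -/
noncomputable abbrev vw (σ : Sc) (w : ∀ t, InfinitePlace (Λ t)) :
    Valuation (G Λ σ) (OO σ (aw w)).ValueGroup :=
  (OO σ (aw w)).valuation

/-- independent germs with growth exponents `β i` -/
structure Bet (e : Fin s → G Λ σ) (β : Fin s → ℝ) : Prop where
  ne : ∀ i, e i ≠ 0
  pos : ∀ i, 0 < β i
  inj : ∀ a : Fin s → ℤ, ∑ i, (a i : ℝ) * β i = 0 → a = 0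
  lt : ∀ (w : ∀ t, InfinitePlace (Λ t)) (a : Fin s → ℤ), 0 < ∑ i, (a i : ℝ) * β i → 1 < vw σ w (pw e a)
  near : ∀ a : Fin s → ℤ, 0 ≤ ∑ i, (a i : ℝ) * β i → pw e a ∈ NI Λ σ

section bet

variable {e : Fin s → G Λ σ} {β : Fin s → ℝ}

theorem sum_neg (β : Fin s → ℝ) (a : Fin s → ℤ) :
    ∑ i, ((-a) i : ℝ) * β i = -∑ i, (a i : ℝ) * β i := by
  rw [← Finset.sum_neg_distrib]
  refine Finset.sum_congr rfl fun i _ => ?_
  rw [Pi.neg_apply]
  push_cast
  ring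

theorem sum_add (β : Fin s → ℝ) (a b : Fin s → ℤ) :
    ∑ i, ((a + b) i : ℝ) * β i = ∑ i, (a i : ℝ) * β i + ∑ i, (b i : ℝ) * β i := by
  rw [← Finset.sum_add_distrib]
  refine Finset.sum_congr rfl fun i _ => ?_
  rw [Pi.add_apply]
  push_cast
  ring

theorem Bet.pw_ne (h : Bet e β) (a : Fin s → ℤ) : pw e a ≠ 0 := SP_pw_ne h.ne a
where
  SP_pw_ne (he : ∀ i, e i ≠ 0) (a : Fin s → ℤ) : pw e a ≠ 0 := Pool.Agent.D0H85.SP.pw_ne e he a

theorem Bet.lt_one (h : Bet e β) (w : ∀ t, InfinitePlace (Λ t)) (a : Fin s → ℤ)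
    (ha : ∑ i, (a i : ℝ) * β i < 0) : vw σ w (pw e a) < 1 := by
  have h1 := h.lt w (-a) (by rw [sum_neg]; linarith)
  rw [pw_neg e h.ne, map_inv₀] at h1
  have h2 : vw σ w (pw e a) ≠ 0 := (Valuation.ne_zero_iff _).2 (h.pw_ne a)
  exact (one_lt_inv₀ (zero_lt_iff.2 h2)).1 h1

theorem Bet.le_one_iff (h : Bet e β) (w : ∀ t, InfinitePlace (Λ t)) (a : Fin s → ℤ) :
    vw σ w (pw e a) ≤ 1 ↔ ∑ i, (a i : ℝ) * β i ≤ 0 := by
  constructor
  · intro h1
    by_contra h2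
    push Not at h2
    exact absurd (h.lt w a h2) (not_lt.2 h1)
  · intro h1
    rcases h1.lt_or_eq with h2 | h2
    · exact (h.lt_one w a h2).le
    · rw [h.inj a h2, pw_zero e h.ne, map_one]

theorem Bet.eq_of (h : Bet e β) (w : ∀ t, InfinitePlace (Λ t)) (a b : Fin s → ℤ)
    (hab : vw σ w (pw e a) = vw σ w (pw e b)) : a = b := by
  have h0 : ∀ a, vw σ w (pw e a) ≠ 0 := fun a => (Valuation.ne_zero_iff _).2 (h.pw_ne a)
  have h1 : vw σ w (pw e (a + -b)) = 1 := by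
    rw [pw_add e h.ne, pw_neg e h.ne, map_mul, map_inv₀, hab, mul_inv_cancel₀ (h0 b)]
  have h2 : vw σ w (pw e (-(a + -b))) = 1 := by
    rw [pw_neg e h.ne, map_inv₀, h1, inv_one]
  have h3 := (h.le_one_iff w _).1 h1.le
  have h4 := (h.le_one_iff w _).1 h2.le
  rw [sum_neg] at h4
  have h5 := h.inj (a + -b) (by linarith)
  have h6 := add_neg_eq_zero.1 h5
  exact h6

theorem vw_FF (w : ∀ t, InfinitePlace (Λ t)) (c : G Λ σ) (hc : c ∈ FF Λ σ) (h0 : c ≠ 0) :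
    vw σ w c = 1 := val_FF w hc h0

/-- dominance for the values at `e` -/
theorem Bet.dom_e (h : Bet e β) (w : ∀ t, InfinitePlace (Λ t)) (p : MvPolynomial (Fin s) (FF Λ σ))
    (hp : p ≠ 0) : ∃ m0 ∈ p.support, vw σ w (evg e p) = vw σ w (pw e (zz m0)) ∧
      ∀ m ∈ p.support, vw σ w (pw e (zz m)) ≤ vw σ w (pw e (zz m0)) := by
  obtain ⟨m0, h1, h2, h3⟩ := dom (vw σ w) (vw_FF w) e h.ne (fun m m' hmm => by
    rw [prod_zz, prod_zz] at hmm
    exact zz_inj (h.eq_of w _ _ hmm)) p hp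
  simp only [prod_zz] at h2 h3
  exact ⟨m0, h1, h2, h3⟩

/-- dominance for the values at `e⁻¹` -/
theorem Bet.dom_inv (h : Bet e β) (w : ∀ t, InfinitePlace (Λ t)) (p : MvPolynomial (Fin s) (FF Λ σ))
    (hp : p ≠ 0) : ∃ m0 ∈ p.support,
      vw σ w (evg (fun i => (e i)⁻¹) p) = vw σ w (pw e (-zz m0)) ∧
      ∀ m ∈ p.support, vw σ w (pw e (-zz m)) ≤ vw σ w (pw e (-zz m0)) := by
  obtain ⟨m0, h1, h2, h3⟩ := dom (vw σ w) (vw_FF w) (fun i => (e i)⁻¹)
    (fun i => inv_ne_zero (h.ne i)) (fun m m' hmm => by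
    rw [prod_inv_zz, prod_inv_zz] at hmm
    exact zz_inj (neg_injective (h.eq_of w _ _ hmm))) p hp
  simp only [prod_inv_zz] at h2 h3
  exact ⟨m0, h1, h2, h3⟩

theorem Bet.evg_inj (h : Bet e β) (p : MvPolynomial (Fin s) (FF Λ σ)) (h0 : evg e p = 0) :
    p = 0 := by
  by_contra hp
  obtain ⟨w⟩ : Nonempty (∀ t, InfinitePlace (Λ t)) := inferInstance
  obtain ⟨m0, -, h2, -⟩ := h.dom_e w p hp
  rw [h0, map_zero] at h2
  exact (Valuation.ne_zero_iff _).2 (h.pw_ne _) h2.symm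

/-- **Near integral values.** -/
theorem Bet.near_value (h : Bet e β) (w : ∀ t, InfinitePlace (Λ t)) (p : MvPolynomial (Fin s) (FF Λ σ))
    (a : Fin s → ℤ) (hle : vw σ w (evg (fun i => (e i)⁻¹) p * pw e a) ≤ 1) :
    evg e p * pw e (-a) ∈ NI Λ σ := by
  by_cases hp : p = 0
  · rw [hp, map_zero, zero_mul]
    exact (NI Λ σ).zero_mem
  obtain ⟨m0, -, h2, h3⟩ := h.dom_inv w p hp
  rw [map_mul, h2] at hle
  rw [evg_eq, Finset.sum_mul]
  refine Subring.sum_mem _ fun m _ => ?_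
  rw [mul_assoc]
  refine (NI Λ σ).mul_mem (FF_NI (p.coeff m.1).2) ?_
  rw [prod_zz, ← pw_add e h.ne]
  apply h.near
  have h4 : vw σ w (pw e (-zz m.1 + a)) ≤ 1 := by
    rw [pw_add e h.ne, map_mul]
    exact (mul_le_mul_left (h3 m.1 m.2) _).trans hle
  have h5 := (h.le_one_iff w _).1 h4
  have h6 : zz m.1 + -a = -(-zz m.1 + a) := by
    rw [neg_add, neg_neg]
  rw [h6, sum_neg]
  linarith

/-- common divisors, in terms of the valuations -/
theorem gcd_contra' {w' : ℕ} (y R : Fin w' → G Λ σ) (q : G Λ σ)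
    (hR : ∀ j, R j ∈ NI Λ σ) (hy : ∀ j, y j = q * R j) (hy0 : ∃ j, y j ≠ 0)
    (hbig : ∀ w : ∀ t, InfinitePlace (Λ t), 1 < vw σ w q)
    (hsm : Sm σ fun t => -ho (Si (Λ t)) fun j => rep (y j) t) : False := by
  have hq : q ≠ 0 := by
    rintro rfl
    obtain ⟨w⟩ : Nonempty (∀ t, InfinitePlace (Λ t)) := inferInstance
    have := hbig w
    rw [map_zero] at this
    exact not_lt_zero this
  -- the places with the smallest values
  have hmin : ∀ t, ∃ w : InfinitePlace (Λ t), ∀ w' : InfinitePlace (Λ t),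
      av (Sum.inl w : Pl (Λ t)) (rep q t) ≤ av (Sum.inl w' : Pl (Λ t)) (rep q t) := fun t =>
    Finite.exists_min fun w : InfinitePlace (Λ t) => av (Sum.inl w : Pl (Λ t)) (rep q t)
  choose w hw using hmin
  have h2 : q ∉ OO σ (aw w) := by
    intro h3
    exact absurd (hbig w) (not_lt.2 (((OO σ _).valuation_le_one_iff q).2 h3))
  rw [mem_OO] at h2
  push Not at h2
  obtain ⟨ε, hε, h3⟩ := h2
  have h4 : ∀ᶠ t in (σ.𝒰 : Filter ℕ), Real.exp (ε * σ.L t) < aw w t (rep q t) := h3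
  refine gcd_contra y R q hq hR hy hy0 ε hε ?_ hsm
  filter_upwards [h4, rep_ne q hq] with t h5 h6 w'
  rw [Real.le_log_iff_exp_le ((av _).pos h6)]
  exact h5.le.trans (hw t w')

end bet

end base


end Pool.Agent.D0H97.FX
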