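import Pool.Agent.D0H97.FT.Core
import Pool.Agent.D0H97.FX.Dm

/-!
The main step: from points with coordinates in the ring of a coherent set to lines.
-/

set_option autoImplicit false
set_option linter.unusedSectionVars false

namespace Pool.Agent.D0H97.FX

open NumberField IsDedekindDomain Height Filter Topology
open Pool.Agent.W180.OP (Pl av wt fv fv_support_finite wt_nonneg)
open Pool.Agent.K1H83.VN (Sc Sm L_pos two_le_exp const_of_finite abs_log_le' nm le_nm nm_le
  nm_nonneg nm_unit ho c1 ne_of_coord ne_of_one ho_mul_le prod_formula logHeight_split)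
open Pool.Agent.D0H85.SP (pw pw_add pw_neg pw_zero Th Th_C Th_X Th_monomial wgt exists_factor
  eval₂_smul poly_zero eval_eval₂)
open Pool.Agent.D0H97.FT (Si hSi inr_Si mem_Si v10 dn nm_pair dn_nonneg dn_le_height dn_mul dn_add
  dn_neg ho_c1_le dg one_le_dg zz zz_inj cM cM_apply zero_form exists_weights)

section core

variable {Λ : ℕ → Type} [∀ t, Field (Λ t)] [∀ t, NumberField (Λ t)] [Bdd Λ] {σ : Sc} {s : ℕ}
  {K : Type} [Field K] [NumberField K] [∀ t, Algebra K (Λ t)]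
  {e : Fin s → G Λ σ} {β : Fin s → ℝ} {n w : ℕ}

theorem pw_nsmul (he : ∀ i, e i ≠ 0) (a : Fin s → ℤ) (d : ℕ) :
    pw e (fun i => (d : ℤ) * a i) = pw e a ^ d := by
  rw [← zpow_natCast, ← Pool.Agent.D0H85.SP.pw_zsmul e he]
  rfl

/-- the value of a form at a vector of germs whose valuation is at most one -/
theorem form_le_one (w0 : ∀ t, InfinitePlace (Λ t)) (g : MvPolynomial (Fin (n + 1)) K)
    (z : Fin (n + 1) → G Λ σ) (hz : ∀ i, vw σ w0 (z i) ≤ 1) :
    vw σ w0 (g.eval₂ (algebraMap K (G Λ σ)) z) ≤ 1 := by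
  rw [MvPolynomial.eval₂_eq]
  refine Valuation.map_sum_le _ fun m _ => ?_
  rw [map_mul, map_prod]
  refine mul_le_one' (val_FF_le _ (alg_mem _)) ?_
  refine Finset.prod_le_one' fun i _ => ?_
  rw [map_pow]
  exact pow_le_one' (hz i) _

/-- a common factor which is not a monomial is impossible -/
theorem factor_contra (h : Bet e β) (x : Fin (n + 1) → ∀ t, Λ t)
    (φ : Fin (n + 1) → MvPolynomial (Fin s) (FF Λ σ)) (Xm : Fin (n + 1) → G Λ σ) (M : ℕ)
    (F : Fin w → MvPolynomial (Fin (n + 1)) K) (dF : Fin w → ℕ)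
    (f : Fin w → MvPolynomial (Fin s) (FF Λ σ))
    (hf : ∀ j, evg e (f j) = pw e (fun _ => (M : ℤ)) ^ dF j *
      gm σ (fun t => MvPolynomial.aeval (fun i => x i t) (F j)))
    (hfm : ∀ j, evg (fun i => (e i)⁻¹) (f j) * pw e (fun _ => (M : ℤ)) ^ dF j =
      (F j).eval₂ (algebraMap K (G Λ σ)) Xm)
    (hXm : ∀ w0 : ∀ t, InfinitePlace (Λ t), ∀ i, vw σ w0 (Xm i) ≤ 1)
    (hFx : ∀ t, ∃ j, MvPolynomial.aeval (fun i => x i t) (F j) ≠ 0)
    (hFs : Sm σ fun t => -ho (Si (Λ t)) fun j => MvPolynomial.aeval (fun i => x i t) (F j))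
    (r : MvPolynomial (Fin s) (FF Λ σ)) (hr : ∀ j, r ∣ f j)
    (hrm : ∀ m c, r ≠ MvPolynomial.monomial m c) : False := by
  classical
  obtain ⟨w0⟩ : Nonempty (∀ t, InfinitePlace (Λ t)) := inferInstance
  have hr0 : r ≠ 0 := by
    rintro rfl
    exact hrm 0 0 (by rw [map_zero])
  choose y hy using hr
  obtain ⟨μ, hμ, hμv, hμmin⟩ := h.dom_inv w0 r hr0
  set E0 : G Λ σ := pw e (fun _ => (M : ℤ)) with hE0
  have hE00 : E0 ≠ 0 := h.pw_ne _
  have hpμ : pw e (zz μ) ≠ 0 := h.pw_ne _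
  let q : G Λ σ := evg e r * pw e (-zz μ)
  let R : Fin w → G Λ σ := fun j => evg e (y j) * pw e (-fun i => ((dF j : ℤ) * (M : ℤ)) - zz μ i)
  have hsplit : ∀ j, pw e (-fun i => ((dF j : ℤ) * (M : ℤ)) - zz μ i) =
      (E0 ^ dF j)⁻¹ * pw e (zz μ) := by
    intro j
    have h1 : (-fun i => ((dF j : ℤ) * (M : ℤ)) - zz μ i : Fin s → ℤ) =
        -(fun _ => (dF j : ℤ) * (M : ℤ)) + zz μ := by
      funext i
      simp only [Pi.neg_apply, Pi.add_apply]
      ring
    rw [h1, pw_add e h.ne, pw_neg e h.ne, pw_nsmul h.ne (fun _ => (M : ℤ)) (dF j)]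
  refine gcd_contra' (fun j => gm σ (fun t => MvPolynomial.aeval (fun i => x i t) (F j))) R q ?_ ?_ ?_ ?_ ?_
  · -- the cofactors are near integers
    intro j
    refine h.near_value w0 (y j) _ ?_
    have h1 : (fun i => ((dF j : ℤ) * (M : ℤ)) - zz μ i : Fin s → ℤ) =
        (fun _ => (dF j : ℤ) * (M : ℤ)) + -zz μ := by
      funext i
      simp only [Pi.neg_apply, Pi.add_apply]
      ring
    rw [h1, pw_add e h.ne, pw_nsmul h.ne (fun _ => (M : ℤ)) (dF j), ← hE0]
    have h2 : vw σ w0 (evg (fun i => (e i)⁻¹) (y j) * (E0 ^ dF j * pw e (-zz μ))) =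
        vw σ w0 ((F j).eval₂ (algebraMap K (G Λ σ)) Xm) := by
      rw [← hfm j, hy j, map_mul (evg _)]
      simp only [map_mul]
      rw [hμv]
      ac_rfl
    rw [h2]
    exact form_le_one w0 (F j) Xm (hXm w0)
  · intro j
    show gm σ (fun t => MvPolynomial.aeval (fun i => x i t) (F j)) = (evg e r * pw e (-zz μ)) *
      (evg e (y j) * pw e (-fun i => ((dF j : ℤ) * (M : ℤ)) - zz μ i))
    rw [hsplit j, pw_neg e h.ne]
    have h1 := hf j
    rw [hy j, map_mul] at h1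
    have h3 : (evg e r * (pw e (zz μ))⁻¹) * (evg e (y j) * ((E0 ^ dF j)⁻¹ * pw e (zz μ))) =
        (evg e r * evg e (y j)) * (E0 ^ dF j)⁻¹ := by
      field_simp
    rw [h3, h1]
    field_simp
  · choose jt hjt using hFx
    obtain ⟨j1, -, hj1⟩ := const_of_finite (σ := σ) jt Set.univ Set.finite_univ
      (Eventually.of_forall fun _ => Set.mem_univ _)
    refine ⟨j1, ?_⟩
    rw [gm_ne]
    filter_upwards [hj1] with t ht
    rw [← ht]
    exact hjt t
  · -- the divisor is large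
    intro w1
    obtain ⟨m1, -, hm1, hmax⟩ := h.dom_e w1 r hr0
    obtain ⟨m, hm, hne⟩ : ∃ m ∈ r.support, m ≠ μ := by
      by_contra hno
      push Not at hno
      apply hrm μ (r.coeff μ)
      refine MvPolynomial.ext _ _ fun m' => ?_
      rw [MvPolynomial.coeff_monomial]
      split_ifs with h1
      · rw [h1]
      · by_contra h2
        exact h1 (hno m' (MvPolynomial.mem_support_iff.2 h2)).symm
    have h1 : vw σ w0 (pw e (-zz m + zz μ)) ≤ 1 := by
      rw [pw_add e h.ne, map_mul]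
      have h2 := hμmin m hm
      have h3 : vw σ w0 (pw e (-zz μ)) * vw σ w0 (pw e (zz μ)) = 1 := by
        rw [← map_mul, ← pw_add e h.ne, neg_add_cancel, pw_zero e h.ne, map_one]
      exact (mul_le_mul_left h2 _).trans h3.le
    have h2 := (h.le_one_iff w0 _).1 h1
    have h3 : ∑ i, ((-zz m + zz μ) i : ℝ) * β i ≠ 0 := by
      intro h4
      have h5 := h.inj _ h4
      apply hne
      apply zz_inj
      have h6 := neg_add_eq_zero.1 h5
      exact h6
    have h4 : 0 < ∑ i, ((zz m + -zz μ) i : ℝ) * β i := by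
      have h5 : (zz m + -zz μ) = -(-zz m + zz μ) := by rw [neg_add, neg_neg]
      rw [h5, sum_neg]
      have := lt_of_le_of_ne h2 h3
      linarith
    have h5 := h.lt w1 _ h4
    show 1 < vw σ w1 (evg e r * pw e (-zz μ))
    rw [map_mul, hm1]
    refine lt_of_lt_of_le h5 ?_
    rw [pw_add e h.ne, map_mul]
    exact mul_le_mul_left (hmax m hm) _
  · refine hFs.mono ?_
    have h1 : ∀ᶠ t in (σ.𝒰 : Filter ℕ), ∀ j, rep (gm σ (fun t => MvPolynomial.aeval (fun i => x i t) (F j))) t =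
        MvPolynomial.aeval (fun i => x i t) (F j) := by
      rw [Filter.eventually_all]
      exact fun j => rep_gm _
    filter_upwards [h1] with t ht
    have h2 : (fun j => rep (gm σ (fun t => MvPolynomial.aeval (fun i => x i t) (F j))) t) =
        fun j => MvPolynomial.aeval (fun i => x i t) (F j) := funext ht
    rw [h2]

/-- the forms do not all vanish at the limit point -/
theorem zero_contra (h : Bet e β) (x : Fin (n + 1) → ∀ t, Λ t) (Xm : Fin (n + 1) → G Λ σ) (M : ℕ)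
    (F : Fin w → MvPolynomial (Fin (n + 1)) K) (dF : Fin w → ℕ)
    (f : Fin w → MvPolynomial (Fin s) (FF Λ σ))
    (hf : ∀ j, evg e (f j) = pw e (fun _ => (M : ℤ)) ^ dF j *
      gm σ (fun t => MvPolynomial.aeval (fun i => x i t) (F j)))
    (hfm : ∀ j, evg (fun i => (e i)⁻¹) (f j) * pw e (fun _ => (M : ℤ)) ^ dF j =
      (F j).eval₂ (algebraMap K (G Λ σ)) Xm)
    (hFx : ∀ t, ∃ j, MvPolynomial.aeval (fun i => x i t) (F j) ≠ 0)
    (hFs : Sm σ fun t => -ho (Si (Λ t)) fun j => MvPolynomial.aeval (fun i => x i t) (F j))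
    (w0 : ∀ t, InfinitePlace (Λ t))
    (hlt : ∀ j, vw σ w0 ((F j).eval₂ (algebraMap K (G Λ σ)) Xm) < 1) : False := by
  classical
  set E0 : G Λ σ := pw e (fun _ => (M : ℤ)) with hE0
  have hE00 : E0 ≠ 0 := h.pw_ne _
  choose jt hjt using hFx
  obtain ⟨j1, -, hj1⟩ := const_of_finite (σ := σ) jt Set.univ Set.finite_univ
    (Eventually.of_forall fun _ => Set.mem_univ _)
  have hgm1 : gm σ (fun t => MvPolynomial.aeval (fun i => x i t) (F j1)) ≠ 0 := by
    rw [gm_ne]
    filter_upwards [hj1] with t ht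
    rw [← ht]
    exact hjt t
  have hf1 : f j1 ≠ 0 := by
    intro h0
    have h1 := hf j1
    rw [h0, map_zero] at h1
    exact mul_ne_zero (pow_ne_zero _ hE00) hgm1 h1.symm
  have : Nonempty (Fin w) := ⟨j1⟩
  obtain ⟨j0, hj0⟩ := Finite.exists_max fun j =>
    vw σ w0 ((F j).eval₂ (algebraMap K (G Λ σ)) Xm)
  -- the values at `e⁻¹` are not zero
  have hne : ∀ j, f j ≠ 0 → ∃ m0 ∈ (f j).support,
      vw σ w0 ((F j).eval₂ (algebraMap K (G Λ σ)) Xm) =
        vw σ w0 (pw e ((fun _ => (dF j : ℤ) * (M : ℤ)) + -zz m0)) := by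
    intro j hj
    obtain ⟨m0, hm0, hv, -⟩ := h.dom_inv w0 (f j) hj
    refine ⟨m0, hm0, ?_⟩
    rw [← hfm j, map_mul, hv, pw_add e h.ne, map_mul, pw_nsmul h.ne (fun _ => (M : ℤ)) (dF j),
      mul_comm]
  have hf0 : f j0 ≠ 0 := by
    intro h0
    have h1 : (F j0).eval₂ (algebraMap K (G Λ σ)) Xm = 0 := by
      rw [← hfm j0, h0, map_zero, zero_mul]
    have h2 := hj0 j1
    simp only [h1, map_zero] at h2
    obtain ⟨m1, -, hm1⟩ := hne j1 hf1
    rw [hm1] at h2
    exact (Valuation.ne_zero_iff _).2 (h.pw_ne _) (le_antisymm h2 zero_le)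
  obtain ⟨m0, -, hm0⟩ := hne j0 hf0
  obtain ⟨a0, ha0⟩ : ∃ a0 : Fin s → ℤ, (fun _ => (dF j0 : ℤ) * (M : ℤ)) + -zz m0 = a0 := ⟨_, rfl⟩
  rw [ha0] at hm0
  have h1 : ∑ i, (a0 i : ℝ) * β i < 0 := by
    have h2 := hlt j0
    rw [hm0] at h2
    have h3 := (h.le_one_iff w0 a0).1 h2.le
    refine lt_of_le_of_ne h3 fun h4 => ?_
    rw [h.inj a0 h4, pw_zero e h.ne, map_one] at h2
    exact lt_irrefl _ h2
  refine gcd_contra' (fun j => gm σ (fun t => MvPolynomial.aeval (fun i => x i t) (F j)))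
    (fun j => evg e (f j) * pw e (-((fun _ => (dF j : ℤ) * (M : ℤ)) + -a0))) (pw e (-a0))
    ?_ ?_ ⟨j1, hgm1⟩ ?_ ?_
  · intro j
    refine h.near_value w0 (f j) _ ?_
    rw [pw_add e h.ne, pw_nsmul h.ne (fun _ => (M : ℤ)) (dF j), ← hE0, ← mul_assoc, hfm j, map_mul]
    have h3 : vw σ w0 (pw e a0) * vw σ w0 (pw e (-a0)) = 1 := by
      rw [← map_mul, ← pw_add e h.ne, add_neg_cancel, pw_zero e h.ne, map_one]
    have h4 : vw σ w0 ((F j).eval₂ (algebraMap K (G Λ σ)) Xm) ≤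
        vw σ w0 ((F j0).eval₂ (algebraMap K (G Λ σ)) Xm) := hj0 j
    rw [hm0] at h4
    exact (mul_le_mul_left h4 _).trans h3.le
  · intro j
    show gm σ (fun t => MvPolynomial.aeval (fun i => x i t) (F j)) = _
    rw [neg_add, neg_neg, pw_add e h.ne, hf j, pw_neg e h.ne (fun _ => (dF j : ℤ) * (M : ℤ)),
      pw_nsmul h.ne (fun _ => (M : ℤ)) (dF j), ← hE0, pw_neg e h.ne a0]
    have h5 : pw e a0 ≠ 0 := h.pw_ne _
    field_simp
  · intro w1
    refine h.lt w1 _ ?_
    rw [sum_neg]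
    linarith
  · refine hFs.mono ?_
    have h2 : ∀ᶠ t in (σ.𝒰 : Filter ℕ), ∀ j, rep (gm σ (fun t => MvPolynomial.aeval (fun i => x i t) (F j))) t =
        MvPolynomial.aeval (fun i => x i t) (F j) := by
      rw [Filter.eventually_all]
      exact fun j => rep_gm _
    filter_upwards [h2] with t ht
    have h3 : (fun j => rep (gm σ (fun t => MvPolynomial.aeval (fun i => x i t) (F j))) t) =
        fun j => MvPolynomial.aeval (fun i => x i t) (F j) := funext ht
    rw [h3]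


end core

end Pool.Agent.D0H97.FX
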