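import Pool.Agent.D0H97.FX.Bd
import Pool.Agent.D0H97.FT.Conv
import Pool.Agent.H58W.HtNorth
import Pool.Agent.D0H85.SQ.Dens

/-!
Points of bounded height and bounded degree lie on a hypersurface.
-/

set_option autoImplicit false
set_option linter.unusedSectionVars false

namespace Pool.Agent.D0H97.FX

open NumberField IsDedekindDomain Height Filter Topology
open Pool.Agent.Helper259.AbsHt (Qbar absLogHeight absLogHeight_eq)
open Pool.Agent.W602.GT (coords LogGeneralType)
open Pool.Agent.D0H85.SQ (NoCentre Covered not_covered)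

/-- elements of bounded height and bounded degree are roots of one polynomial -/
theorem exists_poly (r : ℕ) (B : ℝ) : ∃ Q : Polynomial ℚ, Q ≠ 0 ∧
    ∀ (L : Type) [Field L] [NumberField L], Module.finrank ℚ L ≤ r → ∀ z : L,
      logHeight₁ z ≤ B → Q.eval₂ (algebraMap ℚ L) z = 0 := by
  classical
  have hA : {α : Qbar | (minpoly ℚ α).natDegree ≤ r ∧ absLogHeight ![1, α] ≤ B}.Finite :=
    Pool.Agent.H58W.northcott r B
  refine ⟨∏ α ∈ hA.toFinset, minpoly ℚ α, ?_, ?_⟩
  · refine Finset.prod_ne_zero_iff.2 fun α _ => ?_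
    exact minpoly.ne_zero ((AlgebraicClosure.isAlgebraic ℚ).isAlgebraic α).isIntegral
  · intro L _ _ hr z hz
    let φ : L →ₐ[ℚ] Qbar := IsAlgClosed.lift
    have h1 : minpoly ℚ (φ z) = minpoly ℚ z := minpoly.algHom_eq φ φ.toRingHom.injective z
    have h2 : (minpoly ℚ (φ z)).natDegree ≤ r := by
      rw [h1]
      exact (minpoly.natDegree_le z).trans hr
    have h3 : absLogHeight ![1, φ z] ≤ B := by
      have h4 : (![1, φ z] : Fin 2 → Qbar) = fun i => (φ : L →+* Qbar) ((![1, z] : Fin 2 → L) i) := by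
        funext i
        fin_cases i
        · exact (map_one φ).symm
        · rfl
      rw [h4, absLogHeight_eq L (φ : L →+* Qbar)]
      have h5 : logHeight (![1, z] : Fin 2 → L) = logHeight₁ z := by
        rw [logHeight₁_eq_logHeight, logHeight_swap]
      rw [h5]
      have h6 : (1 : ℝ) ≤ Module.finrank ℚ L := by
        exact_mod_cast Module.finrank_pos (R := ℚ) (M := L)
      exact (div_le_self (zero_le_logHeight₁ _) h6).trans hz
    have h7 : φ z ∈ hA.toFinset := (Set.Finite.mem_toFinset hA).2 ⟨h2, h3⟩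
    rw [Polynomial.eval₂_finsetProd]
    refine Finset.prod_eq_zero h7 ?_
    rw [h1]
    exact minpoly.aeval ℚ z

section hz

variable {K : Type} [Field K] [CharZero K] {n : ℕ}

/-- the homogenisation of a polynomial in one variable -/
noncomputable def hz (K : Type) [Field K] [CharZero K] {n : ℕ} (Q : Polynomial ℚ)
    (i j : Fin (n + 1)) : MvPolynomial (Fin (n + 1)) K :=
  ∑ m ∈ Finset.range (Q.natDegree + 1), MvPolynomial.C (algebraMap ℚ K (Q.coeff m)) *
    (MvPolynomial.X i ^ m * MvPolynomial.X j ^ (Q.natDegree - m))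

theorem hz_hom (Q : Polynomial ℚ) (i j : Fin (n + 1)) :
    (hz K Q i j).IsHomogeneous Q.natDegree := by
  refine MvPolynomial.IsHomogeneous.sum _ _ _ fun m hm => ?_
  have hm' : m ≤ Q.natDegree := Nat.lt_succ_iff.1 (Finset.mem_range.1 hm)
  have h1 := ((MvPolynomial.isHomogeneous_X K i).pow m).mul
    ((MvPolynomial.isHomogeneous_X K j).pow (Q.natDegree - m))
  have h2 := (MvPolynomial.isHomogeneous_C (Fin (n + 1)) (algebraMap ℚ K (Q.coeff m))).mul h1
  have h3 : 0 + (1 * m + 1 * (Q.natDegree - m)) = Q.natDegree := by omega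
  rwa [h3] at h2

theorem hz_eval (Q : Polynomial ℚ) (i j : Fin (n + 1)) {M : Type} [Field M] [Algebra K M]
    (x : Fin (n + 1) → M) (hj : x j ≠ 0) : MvPolynomial.aeval x (hz K Q i j) =
      x j ^ Q.natDegree * Q.eval₂ ((algebraMap K M).comp (algebraMap ℚ K)) (x i / x j) := by
  unfold hz
  rw [map_sum, Polynomial.eval₂_eq_sum_range, Finset.mul_sum]
  refine Finset.sum_congr rfl fun m hm => ?_
  have hm' : m ≤ Q.natDegree := Nat.lt_succ_iff.1 (Finset.mem_range.1 hm)
  rw [map_mul, map_mul, map_pow, map_pow, MvPolynomial.aeval_C, MvPolynomial.aeval_X,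
    MvPolynomial.aeval_X, div_pow]
  have h1 : x j ^ Q.natDegree = x j ^ (Q.natDegree - m) * x j ^ m := by
    rw [← pow_add, Nat.sub_add_cancel hm']
  rw [h1]
  show algebraMap K M (algebraMap ℚ K (Q.coeff m)) * (x i ^ m * x j ^ (Q.natDegree - m)) =
    x j ^ (Q.natDegree - m) * x j ^ m * (algebraMap K M (algebraMap ℚ K (Q.coeff m)) *
      (x i ^ m / x j ^ m))
  field_simp

end hz

/-- one of the ratios is transcendental -/
theorem exists_transc {K E : Type} [Field K] [Field E] [Algebra K E] {n p : ℕ}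
    (hdim : Algebra.trdeg K E = p) (hp : 0 < p) {y : Fin (n + 1) → E} (hgen : coords K y = ⊤)
    (j : Fin (n + 1)) (hj : y j ≠ 0) : ∃ i, Transcendental K (y i / y j) := by
  by_contra hno
  push Not at hno
  have h1 : coords K y ≤ algebraicClosure K E := by
    unfold coords
    rw [IntermediateField.adjoin_le_iff]
    rintro _ ⟨i, i', hi', rfl⟩
    have h2 : ∀ i, y i / y j ∈ algebraicClosure K E := fun i => by
      rw [mem_algebraicClosure_iff]
      have := hno i
      unfold Transcendental at this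
      exact not_not.1 this
    have h3 : y i / y i' = (y i / y j) / (y i' / y j) := by field_simp
    rw [h3]
    exact div_mem (h2 i) (h2 i')
  rw [hgen, top_le_iff] at h1
  have h2 : Algebra.IsAlgebraic K E := by
    constructor
    intro z
    have h3 : z ∈ algebraicClosure K E := by
      rw [h1]
      exact IntermediateField.mem_top
    exact (mem_algebraicClosure_iff).1 h3
  rw [trdeg_eq_zero] at hdim
  have h3 : (p : Cardinal) = 0 := hdim.symm
  rw [Nat.cast_eq_zero] at h3
  omega

/-- points of bounded height and bounded degree lie on a hypersurface -/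
theorem exists_hyper {K E : Type} [Field K] [NumberField K] [Field E] [Algebra K E] {n p : ℕ}
    (hdim : Algebra.trdeg K E = p) (hp : 0 < p) {y : Fin (n + 1) → E} (hy : y ≠ 0)
    (hgen : coords K y = ⊤) (r : ℕ) (B : ℝ) :
    ∃ (H : MvPolynomial (Fin (n + 1)) K) (e : ℕ), H.IsHomogeneous e ∧
      MvPolynomial.aeval y H ≠ 0 ∧ ∀ (L : Type) [Field L] [NumberField L] [Algebra K L],
        Module.finrank ℚ L ≤ r → ∀ x : Fin (n + 1) → L, logHeight x ≤ B →
          MvPolynomial.aeval x H = 0 := by
  obtain ⟨Q, hQ0, hQ⟩ := exists_poly r B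
  obtain ⟨j, hj⟩ := Function.ne_iff.1 hy
  have hj' : y j ≠ 0 := hj
  obtain ⟨i, hi⟩ := exists_transc hdim hp hgen j hj'
  refine ⟨MvPolynomial.X j * hz K Q i j, 1 + Q.natDegree,
    (MvPolynomial.isHomogeneous_X K j).mul (hz_hom Q i j), ?_, ?_⟩
  · rw [map_mul, MvPolynomial.aeval_X, hz_eval Q i j y hj']
    refine mul_ne_zero hj' (mul_ne_zero (pow_ne_zero _ hj') ?_)
    intro h0
    apply hi
    refine ⟨Q.map (algebraMap ℚ K), ?_, ?_⟩
    · exact (Polynomial.map_ne_zero_iff (algebraMap ℚ K).injective).2 hQ0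
    · rw [Polynomial.aeval_def, Polynomial.eval₂_map]
      exact h0
  · intro L _ _ _ hr x hx
    rw [map_mul, MvPolynomial.aeval_X]
    by_cases hxj : x j = 0
    · rw [hxj, zero_mul]
    · refine mul_eq_zero_of_right _ ?_
      rw [hz_eval Q i j x hxj]
      refine mul_eq_zero_of_right _ ?_
      have h1 : (algebraMap K L).comp (algebraMap ℚ K) = algebraMap ℚ L :=
        RingHom.ext_rat _ _
      rw [h1]
      exact hQ L hr _ ((Pool.Agent.K1H83.VN.logHeight₁_div_le x i j).trans hx)

/-- lines and punctured lines -/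
theorem not_coveredL {k E : Type} [Field k] [CharZero k] [Field E] [Algebra k E] {n w p : ℕ}
    (F : Fin w → MvPolynomial (Fin (n + 1)) k) (d : Fin w → ℕ) (hF : ∀ j, (F j).IsHomogeneous (d j))
    (hdim : Algebra.trdeg k E = p) {y : Fin (n + 1) → E} (hy : y ≠ 0) (hgen : coords k y = ⊤)
    (hlgt : LogGeneralType k E p (NoCentre F d y)) : ¬ CoveredL F y := by
  rintro ⟨M, i1, i2, W, h1, h2, h3⟩
  exact not_covered F d hF hdim hy hgen hlgt ⟨M, i1, i2, W, h1, fun t _ => h2 t, h3⟩

end Pool.Agent.D0H97.FX
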